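import Mathlib

set_option autoImplicit false

open Set Topology

namespace Pool.Agent.Lib.MP_dce2ef

/-- A decreasing intersection of compact preconnected sets in a Hausdorff space is preconnected. -/
theorem isPreconnected_iInter_nat {X : Type*} [TopologicalSpace X] [T2Space X]
    (V : ℕ → Set X) (hanti : Antitone V) (hcpt : ∀ n, IsCompact (V n))
    (hconn : ∀ n, IsPreconnected (V n)) : IsPreconnected (⋂ n, V n) := by
  have hclosed : ∀ n, IsClosed (V n) := fun n => (hcpt n).isClosed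
  have hK : IsClosed (⋂ n, V n) := isClosed_iInter hclosed
  have hKc : IsCompact (⋂ n, V n) := (hcpt 0).of_isClosed_subset hK (iInter_subset _ 0)
  rw [isPreconnected_iff_subset_of_fully_disjoint_closed hK]
  intro u v hu hv huv hdisj
  have hKu : IsCompact ((⋂ n, V n) ∩ u) := hKc.inter_right hu
  have hKv : IsCompact ((⋂ n, V n) ∩ v) := hKc.inter_right hv
  have hd : Disjoint ((⋂ n, V n) ∩ u) ((⋂ n, V n) ∩ v) :=
    hdisj.mono inter_subset_right inter_subset_right
  obtain ⟨O₁, O₂, hO₁, hO₂, h₁, h₂, h₁₂⟩ := SeparatedNhds.of_isCompact_isCompact hKu hKv hd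
  have hsub : (⋂ n, V n) ⊆ O₁ ∪ O₂ := by
    intro x hx
    rcases huv hx with h | h
    · exact Or.inl (h₁ ⟨hx, h⟩)
    · exact Or.inr (h₂ ⟨hx, h⟩)
  obtain ⟨n, hn⟩ := exists_subset_nhds_of_isCompact (V := V) hanti.directed_ge hcpt
    (U := O₁ ∪ O₂) (fun x hx => (hO₁.union hO₂).mem_nhds (hsub hx))
  rcases (hconn n).subset_or_subset hO₁ hO₂ h₁₂ hn with h | h
  · left
    intro x hx
    rcases huv hx with h' | h'
    · exact h'
    · exact absurd (h₂ ⟨hx, h'⟩) (fun hx2 =>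
        (disjoint_left.1 h₁₂ (h (mem_iInter.1 hx n))) hx2)
  · right
    intro x hx
    rcases huv hx with h' | h'
    · exact absurd (h₁ ⟨hx, h'⟩) (fun hx1 =>
        (disjoint_left.1 h₁₂ hx1) (h (mem_iInter.1 hx n)))
    · exact h'

/-- Criterion for local connectedness by finite closed covers. -/
theorem locallyConnectedSpace_of_finite_closed_covers {X : Type*} [MetricSpace X]
    (h : ∀ (x : X) (ε : ℝ), 0 < ε → ∃ (F : Set (Set X)), F.Finite ∧ (∀ s ∈ F, IsClosed s) ∧
      (⋃₀ F = univ) ∧ ∀ s ∈ F, x ∈ s → IsPreconnected s ∧ s ⊆ Metric.ball x ε) :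
    LocallyConnectedSpace X := by
  rw [locallyConnectedSpace_iff_connected_subsets]
  intro x U hU
  obtain ⟨ε, hε, hball⟩ := Metric.mem_nhds_iff.1 hU
  obtain ⟨F, hfin, hcl, hcov, hF⟩ := h x ε hε
  refine ⟨⋃₀ {s ∈ F | x ∈ s}, ?_, ?_, ?_⟩
  · have hclosed : IsClosed (⋃₀ {s ∈ F | x ∉ s}) := by
      rw [sUnion_eq_biUnion]
      exact (hfin.subset (sep_subset _ _)).isClosed_biUnion (fun s hs => hcl s hs.1)
    have hx : x ∉ ⋃₀ {s ∈ F | x ∉ s} := by
      rintro ⟨s, hs, hxs⟩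
      exact hs.2 hxs
    refine Filter.mem_of_superset (hclosed.isOpen_compl.mem_nhds hx) ?_
    intro y hy
    have : y ∈ ⋃₀ F := by rw [hcov]; trivial
    obtain ⟨s, hs, hys⟩ := this
    by_cases hxs : x ∈ s
    · exact ⟨s, ⟨hs, hxs⟩, hys⟩
    · exact absurd ⟨s, ⟨hs, hxs⟩, hys⟩ hy
  · apply isPreconnected_sUnion x
    · intro s hs
      exact hs.2
    · intro s hs
      exact (hF s hs.1 hs.2).1
  · apply sUnion_subset
    intro s hs
    exact ((hF s hs.1 hs.2).2).trans hball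

end Pool.Agent.Lib.MP_dce2ef
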