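import Pool.Agent.Lib.MP_dce2ef.Basic

set_option autoImplicit false

open Set Topology

namespace Pool.Agent.Lib.MP_dce2ef

/-- Preimages of closed connected sets under a map with connected fibres between compact
Hausdorff spaces. -/
theorem isConnected_preimage {A B : Type*} [TopologicalSpace A] [TopologicalSpace B]
    [CompactSpace A] [T2Space B] (f : A → B) (hf : Continuous f)
    (hfib : ∀ y, IsConnected (f ⁻¹' {y})) (s : Set B) (hs : IsClosed s) (hc : IsConnected s) :
    IsConnected (f ⁻¹' s) := by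
  have hsurj : Function.Surjective f := fun y => (hfib y).nonempty
  have hq : IsQuotientMap f := hf.isClosedMap.isQuotientMap hf hsurj
  exact hq.isCoinducing.isConnected_preimage_of_isClosed hfib hs hc

variable {P : ℕ → Type} [∀ k, TopologicalSpace (P k)] (f : ∀ k, P (k + 1) → P k)

/-- Make a point of the product coherent below level `j`. -/
noncomputable def Rd : ℕ → (∀ k, P k) → (∀ k, P k)
  | 0, x => x
  | (j + 1), x => Rd j (Function.update x j (f j (x (j + 1))))

omit [∀ k, TopologicalSpace (P k)] in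
theorem Rd_above (j : ℕ) : ∀ (x : ∀ k, P k) (k : ℕ), j ≤ k → Rd f j x k = x k := by
  induction j with
  | zero => intro x k _; rfl
  | succ j ih =>
    intro x k hk
    rw [Rd, ih _ k (by omega), Function.update_of_ne (by omega)]

omit [∀ k, TopologicalSpace (P k)] in
theorem Rd_coherent (j : ℕ) : ∀ (x : ∀ k, P k) (k : ℕ), k < j →
    f k (Rd f j x (k + 1)) = Rd f j x k := by
  induction j with
  | zero => intro x k hk; omega
  | succ j ih =>
    intro x k hk
    rw [Rd]
    by_cases h : k < j
    · exact ih _ k h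
    · have hkj : k = j := by omega
      subst hkj
      rw [Rd_above f k _ (k + 1) (by omega), Rd_above f k _ k (le_refl _),
        Function.update_self, Function.update_of_ne (by omega)]

omit [∀ k, TopologicalSpace (P k)] in
theorem Rd_fixed (j : ℕ) : ∀ (x : ∀ k, P k), (∀ k, k < j → f k (x (k + 1)) = x k) →
    Rd f j x = x := by
  induction j with
  | zero => intro x _; rfl
  | succ j ih =>
    intro x hx
    rw [Rd, hx j (by omega), Function.update_eq_self]
    exact ih x (fun k hk => hx k (by omega))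

theorem Rd_continuous (hf : ∀ k, Continuous (f k)) (j : ℕ) : Continuous (Rd f j) := by
  induction j with
  | zero => exact continuous_id
  | succ j ih =>
    have : Rd f (j + 1) = (Rd f j) ∘ (fun x => Function.update x j (f j (x (j + 1)))) := by
      funext x; rfl
    rw [this]
    apply ih.comp
    apply Continuous.update continuous_id
    exact (hf j).comp (continuous_apply (j + 1))

/-- Iterated preimages of a point. -/
def Sm (i : ℕ) (y : P i) : ∀ m : ℕ, Set (P (i + m))
  | 0 => {y}
  | (m + 1) => (f (i + m)) ⁻¹' (Sm i y m)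

/-- Approximations of the fibre in the product. -/
def Tm (i : ℕ) (y : P i) (m : ℕ) : Set (∀ k, P k) :=
  {x | (∀ k, k < i + m → f k (x (k + 1)) = x k) ∧ x (i + m) ∈ Sm f i y m}

omit [∀ k, TopologicalSpace (P k)] in
theorem Tm_eq (i : ℕ) (y : P i) (m : ℕ) :
    Tm f i y m = Rd f (i + m) '' ((fun x : ∀ k, P k => x (i + m)) ⁻¹' (Sm f i y m)) := by
  ext x
  constructor
  · rintro ⟨h1, h2⟩
    exact ⟨x, h2, Rd_fixed f _ x h1⟩
  · rintro ⟨z, hz, rfl⟩
    refine ⟨fun k hk => Rd_coherent f _ z k hk, ?_⟩
    rw [Rd_above f _ z _ (le_refl _)]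
    exact hz

omit [∀ k, TopologicalSpace (P k)] in
theorem Tm_succ_subset (i : ℕ) (y : P i) (m : ℕ) : Tm f i y (m + 1) ⊆ Tm f i y m := by
  rintro x ⟨h1, h2⟩
  refine ⟨fun k hk => h1 k (by omega), ?_⟩
  have h3 : f (i + m) (x (i + m + 1)) ∈ Sm f i y m := h2
  rw [h1 (i + m) (by omega)] at h3
  exact h3

omit [∀ k, TopologicalSpace (P k)] in
theorem iInter_Tm (i : ℕ) (y : P i) :
    (⋂ m, Tm f i y m) = {x : ∀ k, P k | (∀ k, f k (x (k + 1)) = x k) ∧ x i = y} := by
  ext x
  constructor
  · intro hx
    have hx' := mem_iInter.1 hx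
    refine ⟨fun k => (hx' (k + 1)).1 k (by omega), ?_⟩
    exact (hx' 0).2
  · rintro ⟨h1, h2⟩
    apply mem_iInter.2
    intro m
    refine ⟨fun k _ => h1 k, ?_⟩
    induction m with
    | zero => exact h2
    | succ m ih =>
      change f (i + m) (x (i + m + 1)) ∈ Sm f i y m
      rw [h1]; exact ih

theorem Sm_isClosed [∀ k, T1Space (P k)] (hf : ∀ k, Continuous (f k)) (i : ℕ) (y : P i) (m : ℕ) :
    IsClosed (Sm f i y m) := by
  induction m with
  | zero => exact isClosed_singleton
  | succ m ih => exact ih.preimage (hf (i + m))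

theorem Sm_isConnected [∀ k, CompactSpace (P k)] [∀ k, T2Space (P k)]
    (hf : ∀ k, Continuous (f k)) (hfib : ∀ k y, IsConnected (f k ⁻¹' {y})) (i : ℕ) (y : P i)
    (m : ℕ) : IsConnected (Sm f i y m) := by
  induction m with
  | zero => exact isConnected_singleton
  | succ m ih =>
    exact isConnected_preimage (f (i + m)) (hf _) (hfib _) _ (Sm_isClosed f hf i y m) ih

theorem Tm_isCompact [∀ k, CompactSpace (P k)] [∀ k, T2Space (P k)]
    (hf : ∀ k, Continuous (f k)) (i : ℕ) (y : P i) (m : ℕ) : IsCompact (Tm f i y m) := by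
  rw [Tm_eq]
  apply IsCompact.image _ (Rd_continuous f hf _)
  exact ((Sm_isClosed f hf i y m).preimage (continuous_apply (i + m))).isCompact

theorem Tm_nonempty [∀ k, CompactSpace (P k)] [∀ k, T2Space (P k)] [∀ k, Nonempty (P k)]
    (hf : ∀ k, Continuous (f k)) (hfib : ∀ k y, IsConnected (f k ⁻¹' {y})) (i : ℕ) (y : P i)
    (m : ℕ) : (Tm f i y m).Nonempty := by
  rw [Tm_eq]
  apply Nonempty.image
  obtain ⟨s, hs⟩ := (Sm_isConnected f hf hfib i y m).nonempty
  refine ⟨Function.update (fun k => Classical.arbitrary (P k)) (i + m) s, ?_⟩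
  rw [mem_preimage, Function.update_self]
  exact hs

theorem Tm_isPreconnected [∀ k, CompactSpace (P k)] [∀ k, T2Space (P k)]
    [∀ k, ConnectedSpace (P k)]
    (hf : ∀ k, Continuous (f k)) (hfib : ∀ k y, IsConnected (f k ⁻¹' {y})) (i : ℕ) (y : P i)
    (m : ℕ) : IsPreconnected (Tm f i y m) := by
  rw [Tm_eq]
  apply IsPreconnected.image _ _ (Rd_continuous f hf _).continuousOn
  have : ((fun x : ∀ k, P k => x (i + m)) ⁻¹' (Sm f i y m)) =
      Set.pi univ (Function.update (fun k => (univ : Set (P k))) (i + m) (Sm f i y m)) := by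
    rw [univ_pi_update_univ]
  rw [this]
  apply isPreconnected_univ_pi
  intro k
  by_cases h : k = i + m
  · subst h
    rw [Function.update_self]
    exact (Sm_isConnected f hf hfib i y m).isPreconnected
  · rw [Function.update_of_ne h]
    exact isPreconnected_univ

theorem thread_exists [∀ k, CompactSpace (P k)] [∀ k, T2Space (P k)] [∀ k, Nonempty (P k)]
    (hf : ∀ k, Continuous (f k)) (hfib : ∀ k y, IsConnected (f k ⁻¹' {y})) (i : ℕ) (y : P i) :
    ∃ x : ∀ k, P k, (∀ k, f k (x (k + 1)) = x k) ∧ x i = y := by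
  have h := IsCompact.nonempty_iInter_of_sequence_nonempty_isCompact_isClosed (Tm f i y)
    (Tm_succ_subset f i y) (Tm_nonempty f hf hfib i y) (Tm_isCompact f hf i y 0)
    (fun m => (Tm_isCompact f hf i y m).isClosed)
  rw [iInter_Tm] at h
  exact h

theorem fibre_isPreconnected [∀ k, CompactSpace (P k)] [∀ k, T2Space (P k)]
    [∀ k, ConnectedSpace (P k)]
    (hf : ∀ k, Continuous (f k)) (hfib : ∀ k y, IsConnected (f k ⁻¹' {y})) (i : ℕ) (y : P i) :
    IsPreconnected {x : ∀ k, P k | (∀ k, f k (x (k + 1)) = x k) ∧ x i = y} := by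
  rw [← iInter_Tm]
  exact isPreconnected_iInter_nat _ (antitone_nat_of_succ_le (Tm_succ_subset f i y))
    (Tm_isCompact f hf i y) (Tm_isPreconnected f hf hfib i y)

/-- The projections of a monotone inverse limit of compact Hausdorff spaces, if the limit is
homeomorphic to a connected space `X`: they are surjective with connected fibres, and separate
points. -/
theorem projections {X : Type} [TopologicalSpace X] [ConnectedSpace X]
    [∀ k, CompactSpace (P k)] [∀ k, T2Space (P k)] [∀ k, Nonempty (P k)]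
    (hf : ∀ k, Continuous (f k)) (hfib : ∀ k y, IsConnected (f k ⁻¹' {y}))
    (h : X ≃ₜ {x : ∀ k : ℕ, P k // ∀ k, f k (x (k + 1)) = x k}) :
    ∃ π : ∀ k, X → P k, (∀ k, Continuous (π k)) ∧ (∀ k y, IsConnected (π k ⁻¹' {y})) ∧
      (∀ a b, (∀ k, π k a = π k b) → a = b) := by
  have hcont : ∀ k, Continuous (fun a => (h a).1 k) := fun k =>
    (continuous_apply k).comp (continuous_subtype_val.comp h.continuous)
  have hsurj : ∀ k, Function.Surjective (fun a => (h a).1 k) := by
    intro k y
    obtain ⟨x, hx, hxy⟩ := thread_exists f hf hfib k y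
    refine ⟨h.symm ⟨x, hx⟩, ?_⟩
    simp only [Homeomorph.apply_symm_apply]
    exact hxy
  have hconn : ∀ k, ConnectedSpace (P k) := fun k => (hsurj k).connectedSpace (hcont k)
  refine ⟨fun k a => (h a).1 k, hcont, ?_, ?_⟩
  · intro k y
    refine ⟨?_, ?_⟩
    · obtain ⟨a, ha⟩ := hsurj k y
      exact ⟨a, ha⟩
    · have h1 := fibre_isPreconnected f hf hfib k y
      have h2 : IsPreconnected ((Subtype.val : {x : ∀ k : ℕ, P k // ∀ k, f k (x (k + 1)) = x k} →
          ∀ k, P k) ⁻¹' {x : ∀ k, P k | (∀ k, f k (x (k + 1)) = x k) ∧ x k = y}) := by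
        have hind : IsInducing (Subtype.val : {x : ∀ k : ℕ, P k // ∀ k, f k (x (k + 1)) = x k} →
          ∀ k, P k) := ⟨rfl⟩
        have himg : (Subtype.val : {x : ∀ k : ℕ, P k // ∀ k, f k (x (k + 1)) = x k} →
          ∀ k, P k) '' ((Subtype.val : {x : ∀ k : ℕ, P k // ∀ k, f k (x (k + 1)) = x k} →
          ∀ k, P k) ⁻¹' {x : ∀ k, P k | (∀ k, f k (x (k + 1)) = x k) ∧ x k = y}) =
          {x : ∀ k, P k | (∀ k, f k (x (k + 1)) = x k) ∧ x k = y} := by
          ext x
          constructor
          · rintro ⟨z, hz, rfl⟩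
            exact hz
          · intro hx
            exact ⟨⟨x, hx.1⟩, hx, rfl⟩
        apply hind.isPreconnected_image.1
        rw [himg]
        exact h1
      have h3 : (fun a => (h a).1 k) ⁻¹' {y} = h ⁻¹' ((Subtype.val :
          {x : ∀ k : ℕ, P k // ∀ k, f k (x (k + 1)) = x k} →
          ∀ k, P k) ⁻¹' {x : ∀ k, P k | (∀ k, f k (x (k + 1)) = x k) ∧ x k = y}) := by
        ext a
        simp only [mem_preimage, mem_singleton_iff, mem_ofPred_eq]
        exact ⟨fun hh => ⟨(h a).2, hh⟩, fun hh => hh.2⟩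
      rw [h3]
      exact h.isPreconnected_preimage.2 h2
  · intro a b hab
    apply h.injective
    apply Subtype.ext
    funext k
    exact hab k

end Pool.Agent.Lib.MP_dce2ef
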