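import Pool.Agent.Lib.MP_dce2ef.Space
import Pool.Agent.Lib.MP_dce2ef.InvLim

set_option autoImplicit false

open Set Topology

namespace Pool.Agent.Lib.MP_dce2ef

theorem Ioo_not_countable (a b : ℝ) (h : a < b) : ¬ (Ioo a b).Countable := by
  intro hc
  have h1 := Cardinal.mk_Ioo_real h
  have h2 := Cardinal.le_aleph0_iff_set_countable.2 hc
  rw [h1] at h2
  exact absurd h2 (not_le.2 Cardinal.aleph0_lt_continuum)

/-- Disjoint sets indexed by `T`, each meeting the vertex set: `T` is countable. -/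
theorem countable_of_meet (T : Set ℝ) (A : ℝ → Set X0)
    (hdisj : ∀ s ∈ T, ∀ t ∈ T, ∀ x, x ∈ A s → x ∈ A t → s = t)
    (hmeet : ∀ s ∈ T, ∃ x ∈ A s, (x : ℝ × ℝ) ∈ Vx) : T.Countable := by
  choose! v hv hvV using hmeet
  have h1 : MapsTo (fun s => (v s : ℝ × ℝ)) T Vx := fun s hs => hvV s hs
  have h2 : InjOn (fun s => (v s : ℝ × ℝ)) T := by
    intro s hs t ht hst
    have h3 : v s = v t := Subtype.ext hst
    exact hdisj s hs t ht (v s) (hv s hs) (h3 ▸ hv t ht)
  exact h1.countable_of_injOn h2 Vx_countable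

/-- A preconnected subset of the gasket part that has two points meets the vertex set. -/
theorem meets_of_two_points (A : Set X0) (hA : IsPreconnected A)
    (hAG : ∀ x ∈ A, (x : ℝ × ℝ) ∈ G) (a b : X0) (ha : a ∈ A) (hb : b ∈ A) (hab : a ≠ b) :
    ∃ x ∈ A, (x : ℝ × ℝ) ∈ Vx := by
  by_contra hcon
  push Not at hcon
  have h1 : IsPreconnected ((Subtype.val : X0 → ℝ × ℝ) '' A) :=
    hA.image _ continuous_subtype_val.continuousOn
  have h2 : ((Subtype.val : X0 → ℝ × ℝ) '' A).Subsingleton := by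
    apply subsingleton_of_avoid _ h1
    · rintro _ ⟨x, hx, rfl⟩
      exact hAG x hx
    · rw [eq_empty_iff_forall_notMem]
      rintro _ ⟨⟨x, hx, rfl⟩, hxV⟩
      exact hcon x hx hxV
  apply hab
  apply Subtype.ext
  exact h2 ⟨a, ha, rfl⟩ ⟨b, hb, rfl⟩

variable {E : Type*} [NormedAddCommGroup E] [InnerProductSpace ℝ E]

/-- Key result: a map with connected fibres from the square-with-gasket onto a finite union of
compact convex sets is constant on the gasket. -/
theorem constant_on_gasket (𝒮 : Set (Set E)) (hfin : 𝒮.Finite)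
    (hconv : ∀ C ∈ 𝒮, IsCompact C ∧ Convex ℝ C) (P : Set E) (hP : P = ⋃₀ 𝒮)
    (f : X0 → P) (hf : Continuous f) (hfib : ∀ y, IsConnected (f ⁻¹' {y}))
    (a b : X0) (ha : (a : ℝ × ℝ) ∈ G) (hb : (b : ℝ × ℝ) ∈ G) : f a = f b := by
  by_contra hab
  have hsurj : Function.Surjective f := fun y => (hfib y).nonempty
  have hPcompact : IsCompact P := by
    rw [hP, sUnion_eq_biUnion]
    exact hfin.isCompact_biUnion (fun C hC => (hconv C hC).1)
  have : CompactSpace P := isCompact_iff_compactSpace.1 hPcompact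
  have : ConnectedSpace P := hsurj.connectedSpace hf
  -- the open set
  let Qs : Set X0 := (Subtype.val : X0 → ℝ × ℝ) ⁻¹' Q
  let Gs : Set X0 := (Subtype.val : X0 → ℝ × ℝ) ⁻¹' G
  have hQs : IsClosed Qs := Q_isClosed.preimage continuous_subtype_val
  have hGs : IsClosed Gs := G_isClosed.preimage continuous_subtype_val
  have hQG : ∀ x : X0, x ∈ Qs ∨ x ∈ Gs := fun x => x.2
  have hfQ : IsClosed (f '' Qs) := (hQs.isCompact.image hf).isClosed
  let O : Set P := (f '' Qs)ᶜ
  have hO : IsOpen O := hfQ.isOpen_compl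
  let z0 : X0 := ⟨(0, 0), Or.inl zero_mem_Q⟩
  have hOne : O.Nonempty := by
    by_contra hempty
    rw [not_nonempty_iff_eq_empty, compl_empty_iff] at hempty
    have hconst : ∀ g : X0, g ∈ Gs → f g = f z0 := by
      intro g hg
      have h1 : f g ∈ f '' Qs := by rw [hempty]; trivial
      obtain ⟨q, hq, hqg⟩ := h1
      have h2 := isPreconnected_closed_iff.1 (hfib (f g)).isPreconnected Qs Gs hQs hGs
        (fun x _ => hQG x) ⟨q, hqg, hq⟩ ⟨g, rfl, hg⟩
      obtain ⟨x, hx, hxQ, hxG⟩ := h2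
      have h3 : x = z0 := Subtype.ext (Q_inter_G _ hxQ hxG)
      rw [h3] at hx
      exact hx.symm
    exact hab ((hconst a ha).trans (hconst b hb).symm)
  have hOG : ∀ x : X0, f x ∈ O → x ∉ Qs ∧ x ∈ Gs := by
    intro x hx
    have h1 : x ∉ Qs := fun h => hx ⟨x, h, rfl⟩
    exact ⟨h1, (hQG x).resolve_left h1⟩
  -- a convex piece with interior
  obtain ⟨C, hCS, O₂, hO₂, hO₂O, hO₂C, hO₂ne⟩ : ∃ C ∈ 𝒮, ∃ O₂ : Set P, IsOpen O₂ ∧ O₂ ⊆ O ∧
      (∀ y ∈ O₂, (y : E) ∈ C) ∧ O₂.Nonempty := by
    have hcl : ∀ C ∈ 𝒮, IsClosed ((Subtype.val : P → E) ⁻¹' C) := fun C hC =>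
      ((hconv C hC).1.isClosed).preimage continuous_subtype_val
    have hcov : (⋃ C ∈ 𝒮, ((Subtype.val : P → E) ⁻¹' C)) = univ := by
      rw [eq_univ_iff_forall]
      intro y
      have h1 : (y : E) ∈ ⋃₀ 𝒮 := by rw [← hP]; exact y.2
      obtain ⟨C, hC, hyC⟩ := h1
      exact mem_iUnion₂.2 ⟨C, hC, hyC⟩
    have hdense := dense_biUnion_interior_of_closed hcl hfin.countable hcov
    obtain ⟨y, hyO, hyI⟩ := hdense.exists_mem_open hO hOne
    obtain ⟨C, hC, hyC⟩ := mem_iUnion₂.1 hyO
    refine ⟨C, hC, O ∩ interior ((Subtype.val : P → E) ⁻¹' C), hO.inter isOpen_interior,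
      inter_subset_left, fun z hz => ?_, ⟨y, hyI, hyC⟩⟩
    have h2 : z ∈ (Subtype.val : P → E) ⁻¹' C := interior_subset hz.2
    exact h2
  obtain ⟨y0, hy0⟩ := hO₂ne
  have hCc := (hconv C hCS).2
  have hCP : C ⊆ P := by rw [hP]; exact subset_sUnion_of_mem hCS
  -- a metric ball
  obtain ⟨ρ, hρ, hball⟩ := Metric.isOpen_iff.1 hO₂ y0 hy0
  have hballC : ∀ w, (hw : w ∈ C) → dist w (y0 : E) < ρ → (⟨w, hCP hw⟩ : P) ∈ O₂ := by
    intro w hw hd
    exact hball hd
  have hy0C : (y0 : E) ∈ C := hO₂C y0 hy0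
  -- another point of C
  obtain ⟨z, hzC, hzy⟩ : ∃ z ∈ C, z ≠ (y0 : E) := by
    by_contra hcon
    push Not at hcon
    have h1 : O₂ = {y0} := by
      ext w
      constructor
      · intro hw
        exact Subtype.ext (hcon w (hO₂C w hw))
      · rintro rfl
        exact hy0
    have h2 : IsClopen ({y0} : Set P) := ⟨isClosed_singleton, h1 ▸ hO₂⟩
    have h3 := isClopen_iff.1 h2
    rcases h3 with h3 | h3
    · exact (singleton_ne_empty y0) h3
    · have h4 : f a = y0 := by
        have : f a ∈ ({y0} : Set P) := by rw [h3]; trivial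
        exact this
      have h5 : f b = y0 := by
        have : f b ∈ ({y0} : Set P) := by rw [h3]; trivial
        exact this
      exact hab (h4.trans h5.symm)
  set e : E := z - y0 with he
  have hene : e ≠ 0 := sub_ne_zero.2 hzy
  have hpre : ∀ K : Set E, K ⊆ C → IsCompact K → IsConnected K →
      IsConnected (f ⁻¹' ((Subtype.val : P → E) ⁻¹' K)) := by
    intro K hKC hKc hKconn
    apply isConnected_preimage f hf hfib
    · exact hKc.isClosed.preimage continuous_subtype_val
    · refine ⟨?_, ?_⟩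
      · obtain ⟨w, hw⟩ := hKconn.nonempty
        exact ⟨⟨w, hCP (hKC hw)⟩, hw⟩
      · rw [← Topology.IsInducing.subtypeVal.isPreconnected_image, Subtype.image_preimage_coe,
          inter_eq_self_of_subset_right (hKC.trans hCP)]
        exact hKconn.isPreconnected
  by_cases hline : ∃ z' ∈ C, ∀ r : ℝ, z' - (y0 : E) ≠ r • e
  · -- two-dimensional case
    obtain ⟨z', hz'C, hz'⟩ := hline
    set e' : E := z' - y0 with he'
    have hindep : ∀ p q : ℝ, p • e + q • e' = 0 → p = 0 ∧ q = 0 := by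
      intro p q hpq
      have hq : q = 0 := by
        by_contra hq
        apply hz' (-(p / q))
        have h1 : q • e' = -(p • e) := by
          rw [eq_neg_iff_add_eq_zero, add_comm]; exact hpq
        have h2 : e' = q⁻¹ • (q • e') := by rw [smul_smul, inv_mul_cancel₀ hq, one_smul]
        rw [h2, h1, smul_neg, smul_smul, neg_smul]
        congr 2
        field_simp
      subst hq
      rw [zero_smul, add_zero] at hpq
      exact ⟨(smul_eq_zero.1 hpq).resolve_right hene, rfl⟩
    set M : ℝ := ‖e‖ + ‖e'‖ + 1 with hM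
    have hMpos : 0 < M := by positivity
    set ε₀ : ℝ := min 1 (ρ / M) with hε₀
    have hε₀pos : 0 < ε₀ := lt_min one_pos (div_pos hρ hMpos)
    let w : ℝ → ℝ → E := fun s t => (y0 : E) + s • ((1 - t) • e + t • e')
    have hwC : ∀ s ∈ Ioo 0 ε₀, ∀ t ∈ Icc (0 : ℝ) 1, w s t ∈ C := by
      intro s hs t ht
      have hs1 : s ≤ 1 := hs.2.le.trans (min_le_left _ _)
      have h1 : (1 - t) • z + t • z' ∈ C :=
        hCc hzC hz'C (by linarith [ht.2]) ht.1 (by ring)
      have h2 : (1 - s) • (y0 : E) + s • ((1 - t) • z + t • z') ∈ C :=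
        hCc hy0C h1 (by linarith) hs.1.le (by ring)
      have h3 : w s t = (1 - s) • (y0 : E) + s • ((1 - t) • z + t • z') := by
        simp only [w, he, he']
        module
      rw [h3]; exact h2
    have hwd : ∀ s ∈ Ioo 0 ε₀, ∀ t ∈ Icc (0 : ℝ) 1, dist (w s t) (y0 : E) < ρ := by
      intro s hs t ht
      have h1 : dist (w s t) (y0 : E) = ‖s • ((1 - t) • e + t • e')‖ := by
        rw [dist_eq_norm]; congr 1; simp only [w]; abel
      rw [h1, norm_smul, Real.norm_of_nonneg hs.1.le]
      have h2 : ‖(1 - t) • e + t • e'‖ ≤ ‖e‖ + ‖e'‖ := by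
        calc ‖(1 - t) • e + t • e'‖ ≤ ‖(1 - t) • e‖ + ‖t • e'‖ := norm_add_le _ _
          _ = (1 - t) * ‖e‖ + t * ‖e'‖ := by
            rw [norm_smul, norm_smul, Real.norm_of_nonneg (by linarith [ht.2]),
              Real.norm_of_nonneg ht.1]
          _ ≤ 1 * ‖e‖ + 1 * ‖e'‖ := by
            gcongr
            · linarith [ht.1]
            · exact ht.2
          _ = _ := by ring
      have h3 : s < ρ / M := hs.2.trans_le (min_le_right _ _)
      have h4 : s * M < ρ := by rwa [lt_div_iff₀ hMpos] at h3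
      have h5 : s * ‖(1 - t) • e + t • e'‖ ≤ s * M := by
        apply mul_le_mul_of_nonneg_left _ hs.1.le
        linarith
      linarith
    have hcount : (Ioo 0 ε₀).Countable := by
      apply countable_of_meet (Ioo 0 ε₀)
        (fun s => f ⁻¹' ((Subtype.val : P → E) ⁻¹' ((fun t => w s t) '' Icc (0 : ℝ) 1)))
      · intro s hs s' hs' x hx hx'
        obtain ⟨t, ht, htx⟩ := hx
        obtain ⟨t', ht', htx'⟩ := hx'
        have h1 : w s t = w s' t' := htx.trans htx'.symm
        have h2 : (s * (1 - t) - s' * (1 - t')) • e + (s * t - s' * t') • e' = 0 := by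
          have h3 : w s t - w s' t' = 0 := sub_eq_zero.2 h1
          rw [← h3]
          simp only [w]
          module
        obtain ⟨h4, h5⟩ := hindep _ _ h2
        linarith
      · intro s hs
        have hcont : Continuous (fun t => w s t) := by
          simp only [w]; fun_prop
        have hconn : IsConnected ((fun t => w s t) '' Icc (0 : ℝ) 1) :=
          (isConnected_Icc zero_le_one).image _ hcont.continuousOn
        have hKC : (fun t => w s t) '' Icc (0 : ℝ) 1 ⊆ C := by
          rintro _ ⟨t, ht, rfl⟩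
          exact hwC s hs t ht
        have hA := hpre _ hKC (isCompact_Icc.image hcont) hconn
        have m0 : (0 : ℝ) ∈ Icc (0 : ℝ) 1 := ⟨le_refl _, zero_le_one⟩
        have m1 : (1 : ℝ) ∈ Icc (0 : ℝ) 1 := ⟨zero_le_one, le_refl _⟩
        obtain ⟨a1, ha1⟩ := hsurj ⟨w s 0, hCP (hwC s hs 0 m0)⟩
        obtain ⟨b1, hb1⟩ := hsurj ⟨w s 1, hCP (hwC s hs 1 m1)⟩
        apply meets_of_two_points _ hA.isPreconnected _ a1 b1
        · rw [mem_preimage, mem_preimage, ha1]; exact ⟨0, m0, rfl⟩
        · rw [mem_preimage, mem_preimage, hb1]; exact ⟨1, m1, rfl⟩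
        · intro hab1
          rw [hab1, hb1] at ha1
          have h1 : w s 1 = w s 0 := congrArg Subtype.val ha1
          have h2 : (-s) • e + s • e' = 0 := by
            have h3 : w s 1 - w s 0 = 0 := sub_eq_zero.2 h1
            rw [← h3]
            simp only [w]
            module
          have h4 := (hindep _ _ h2).2
          exact (ne_of_gt hs.1) h4
        · intro x hx
          obtain ⟨t, ht, htx⟩ := hx
          have h1 : f x ∈ O₂ := by
            have h2 := hballC (w s t) (hwC s hs t ht) (hwd s hs t ht)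
            have h3 : f x = ⟨w s t, hCP (hwC s hs t ht)⟩ := Subtype.ext htx.symm
            rw [h3]; exact h2
          exact (hOG x (hO₂O h1)).2
    exact Ioo_not_countable 0 ε₀ hε₀pos hcount
  · -- one-dimensional case
    push Not at hline
    have heepos : 0 < ‖e‖ := norm_pos_iff.2 hene
    let r : E → ℝ := fun w => inner ℝ e (w - y0) / inner ℝ e e
    have hrc : Continuous r := by
      simp only [r]; fun_prop
    have hee : inner ℝ e e ≠ (0 : ℝ) := by
      rw [real_inner_self_eq_norm_sq]; positivity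
    have hr : ∀ t : ℝ, r ((y0 : E) + t • e) = t := by
      intro t
      simp only [r, add_sub_cancel_left, inner_smul_right]
      field_simp
    have hCr : ∀ w ∈ C, w = (y0 : E) + (r w) • e := by
      intro w hw
      obtain ⟨t, ht⟩ := hline w hw
      have h1 : w = (y0 : E) + t • e := by rw [← ht]; abel
      rw [h1, hr]
    set β : ℝ := min 1 (ρ / ‖e‖) with hβ
    have hβpos : 0 < β := lt_min one_pos (div_pos hρ heepos)
    have hwC : ∀ t ∈ Ioo 0 β, (y0 : E) + t • e ∈ C := by
      intro t ht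
      have ht1 : t ≤ 1 := ht.2.le.trans (min_le_left _ _)
      have h2 : (1 - t) • (y0 : E) + t • z ∈ C :=
        hCc hy0C hzC (by linarith) ht.1.le (by ring)
      have h3 : (y0 : E) + t • e = (1 - t) • (y0 : E) + t • z := by
        simp only [he]
        module
      rw [h3]; exact h2
    have hwd : ∀ t ∈ Ioo 0 β, dist ((y0 : E) + t • e) (y0 : E) < ρ := by
      intro t ht
      rw [dist_self_add_left, norm_smul, Real.norm_of_nonneg ht.1.le]
      have h3 : t < ρ / ‖e‖ := ht.2.trans_le (min_le_right _ _)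
      rwa [lt_div_iff₀ heepos] at h3
    let wP : ∀ t ∈ Ioo 0 β, P := fun t ht => ⟨(y0 : E) + t • e, hCP (hwC t ht)⟩
    have hwO : ∀ t (ht : t ∈ Ioo 0 β), wP t ht ∈ O₂ := fun t ht => hballC _ (hwC t ht) (hwd t ht)
    let A : ℝ → Set X0 := fun t => {x | (f x : E) = (y0 : E) + t • e}
    have hAeq : ∀ t (ht : t ∈ Ioo 0 β), A t = f ⁻¹' {wP t ht} := by
      intro t ht
      ext x
      simp only [A, wP, mem_preimage, mem_singleton_iff, mem_ofPred_eq, Subtype.ext_iff]
    have hAdisj : ∀ s t x, x ∈ A s → x ∈ A t → s = t := by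
      intro s t x hs ht
      have h1 : (f x : E) = (y0 : E) + s • e := hs
      have h2 : (f x : E) = (y0 : E) + t • e := ht
      rw [← hr s, ← hr t, ← h1, ← h2]
    let T : Set ℝ := {t ∈ Ioo 0 β | ∃ x ∈ A t, (x : ℝ × ℝ) ∈ Vx}
    have hT : T.Countable :=
      countable_of_meet T A (fun s _ t _ x => hAdisj s t x) (fun s hs => hs.2)
    obtain ⟨r0, hr0, hr0T⟩ : ∃ r0 ∈ Ioo 0 β, r0 ∉ T := by
      by_contra hcon
      push Not at hcon
      exact Ioo_not_countable 0 β hβpos (hT.mono hcon)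
    have hAconn : IsConnected (A r0) := by rw [hAeq r0 hr0]; exact hfib _
    have hAG : ∀ t ∈ Ioo 0 β, ∀ x ∈ A t, x ∉ Qs ∧ x ∈ Gs := by
      intro t ht x hx
      apply hOG x
      apply hO₂O
      rw [hAeq t ht] at hx
      have h1 : f x = wP t ht := hx
      rw [h1]; exact hwO t ht
    obtain ⟨x, hx⟩ := hAconn.nonempty
    have hAx : ∀ x' ∈ A r0, x' = x := by
      intro x' hx'
      by_contra hne
      obtain ⟨v, hv, hvV⟩ := meets_of_two_points (A r0) hAconn.isPreconnected
        (fun y hy => (hAG r0 hr0 y hy).2) x' x hx' hx hne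
      exact hr0T ⟨hr0, v, hv, hvV⟩
    have hxQ : x ∉ Qs := (hAG r0 hr0 x hx).1
    have hxG : (x : ℝ × ℝ) ∈ G := (hAG r0 hr0 x hx).2
    have hxV : (x : ℝ × ℝ) ∉ Vx := fun h => hr0T ⟨hr0, x, hx, h⟩
    have hfx : f x ∈ O₂ := by
      rw [hAeq r0 hr0] at hx
      have h1 : f x = wP r0 hr0 := hx
      rw [h1]; exact hwO r0 hr0
    -- a small cell
    obtain ⟨δ, hδ, hδW⟩ := Metric.isOpen_iff.1 (hO₂.preimage hf) x hfx
    obtain ⟨k, hk⟩ := exists_pow_lt δ hδ
    obtain ⟨w, hwk, hxw⟩ := exists_cell x hxG k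
    have hcellW : ∀ x' : X0, (x' : ℝ × ℝ) ∈ cell w → f x' ∈ O₂ := by
      intro x' hx'
      apply hδW
      rw [Metric.mem_ball, Subtype.dist_eq]
      have h1 := cell_dist w _ _ hx' hxw
      rw [hwk] at h1
      linarith
    let D : Set X0 := (Subtype.val : X0 → ℝ × ℝ) ⁻¹' (cell w \ {(x : ℝ × ℝ)})
    have hD : IsPreconnected D :=
      preconnected_coe_preimage _ ((sdiff_subset.trans (cell_subset_G w)).trans subset_union_right)
        (cell_diff_isPreconnected _ hxV w hxw)
    have hφc : Continuous (fun x' => r (f x' : E)) :=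
      hrc.comp (continuous_subtype_val.comp hf)
    have hφne : ∀ x' ∈ D, r (f x' : E) ≠ r0 := by
      intro x' hx' hr'
      have h1 : (f x' : E) = (y0 : E) + r0 • e := by
        rw [← hr']; exact hCr _ (hO₂C _ (hcellW x' hx'.1))
      have h2 := hAx x' h1
      apply hx'.2
      rw [h2]; rfl
    have hhelp : ∀ c ∈ Ioo 0 β, c ≠ r0 → ∃ x' ∈ D, r (f x' : E) ∈ uIcc r0 c := by
      intro c hc hcr
      have hsubI : uIcc r0 c ⊆ Ioo 0 β := by
        intro t ht
        rw [mem_uIcc] at ht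
        rcases ht with ht | ht
        · exact ⟨hr0.1.trans_le ht.1, ht.2.trans_lt hc.2⟩
        · exact ⟨hc.1.trans_le ht.1, ht.2.trans_lt hr0.2⟩
      have hcont : Continuous (fun t : ℝ => (y0 : E) + t • e) := by fun_prop
      have hKC : (fun t : ℝ => (y0 : E) + t • e) '' uIcc r0 c ⊆ C := by
        rintro _ ⟨t, ht, rfl⟩
        exact hwC t (hsubI ht)
      have hconn : IsConnected ((fun t : ℝ => (y0 : E) + t • e) '' uIcc r0 c) := by
        apply IsConnected.image _ _ hcont.continuousOn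
        rw [uIcc]
        exact isConnected_Icc inf_le_sup
      have hA2 := hpre _ hKC (isCompact_uIcc.image hcont) hconn
      obtain ⟨xc, hxc⟩ := hsurj (wP c hc)
      have hxcA : xc ∈ f ⁻¹' ((Subtype.val : P → E) ⁻¹'
          ((fun t : ℝ => (y0 : E) + t • e) '' uIcc r0 c)) := by
        rw [mem_preimage, mem_preimage, hxc]
        exact ⟨c, right_mem_uIcc, rfl⟩
      have hxA2 : x ∈ f ⁻¹' ((Subtype.val : P → E) ⁻¹'
          ((fun t : ℝ => (y0 : E) + t • e) '' uIcc r0 c)) :=
        ⟨r0, left_mem_uIcc, hx.symm⟩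
      have hxcx : xc ≠ x := by
        intro h
        apply hcr
        apply hAdisj c r0 x _ hx
        change (f x : E) = _
        rw [← h, hxc]
      let N : Set X0 := Qsᶜ ∩ ((Subtype.val : X0 → ℝ × ℝ) ⁻¹' (rest w))ᶜ
      have hN : IsOpen N :=
        hQs.isOpen_compl.inter ((rest_isClosed w).preimage continuous_subtype_val).isOpen_compl
      have hxN : x ∈ N := ⟨hxQ, not_mem_rest _ hxV w hxw⟩
      obtain ⟨x', hx'A, hx'N, hx'x⟩ := hA2.isPreconnected N ({x}ᶜ) hN
        isClosed_singleton.isOpen_compl (fun y _ => by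
          by_cases hy : y = x
          · left; rw [hy]; exact hxN
          · right; exact hy) ⟨x, hxA2, hxN⟩ ⟨xc, hxcA, hxcx⟩
      have hx'G : (x' : ℝ × ℝ) ∈ G := (hQG x').resolve_left hx'N.1
      have hx'c : (x' : ℝ × ℝ) ∈ cell w := by
        rw [← cell_union_rest w] at hx'G
        exact hx'G.resolve_right hx'N.2
      refine ⟨x', ⟨hx'c, fun h => hx'x (Subtype.ext h)⟩, ?_⟩
      obtain ⟨t, ht, htx⟩ := hx'A
      have h1 : (y0 : E) + t • e = f x' := htx
      rw [← h1, hr]
      exact ht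
    rcases hD.mapsTo_Ioi_or_Iio hφc.continuousOn hφne with h | h
    · -- values above r0 on D
      obtain ⟨x', hx'D, hx'r⟩ := hhelp (r0 / 2) ⟨by linarith [hr0.1], by linarith [hr0.1, hr0.2]⟩
        (by linarith [hr0.1])
      have h1 : r0 < r (f x' : E) := h hx'D
      rw [uIcc_of_ge (by linarith [hr0.1])] at hx'r
      linarith [hx'r.2]
    · obtain ⟨x', hx'D, hx'r⟩ := hhelp ((r0 + β) / 2) ⟨by linarith [hr0.1, hr0.2],
        by linarith [hr0.1, hr0.2]⟩ (by linarith [hr0.2])
      have h1 : r (f x' : E) < r0 := h hx'D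
      rw [uIcc_of_le (by linarith [hr0.2])] at hx'r
      linarith [hx'r.1]

end Pool.Agent.Lib.MP_dce2ef
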