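import Pool.Agent.Lib.MP_dce2ef.Basic

set_option autoImplicit false

open Set Topology

namespace Pool.Agent.Lib.MP_dce2ef

theorem pigeon (s t : ℝ) : ∃ c : Fin 3, (∀ n : ℤ, s - (c : ℕ) / 3 ≠ n) ∧
    (∀ n : ℤ, t - (c : ℕ) / 3 ≠ n) := by
  have key : ∀ (s : ℝ) (c d : ℕ), c < d → d < 3 → (∃ n : ℤ, s - (c : ℝ) / 3 = n) →
      (∃ n : ℤ, s - (d : ℝ) / 3 = n) → False := by
    intro s c d hcd hd ⟨n, hn⟩ ⟨m, hm⟩
    have h1 : ((d : ℝ) - c) = 3 * ((n : ℝ) - m) := by linarith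
    have h2 : ((d : ℤ) - c) = 3 * (n - m) := by exact_mod_cast h1
    omega
  by_contra hcon
  push Not at hcon
  have h : ∀ c : Fin 3, (∃ n : ℤ, s - ((c : ℕ) : ℝ) / 3 = n) ∨ (∃ n : ℤ, t - ((c : ℕ) : ℝ) / 3 = n) := by
    intro c
    by_cases hc : ∀ n : ℤ, s - ((c : ℕ) : ℝ) / 3 ≠ n
    · exact Or.inr (hcon c hc)
    · push Not at hc; exact Or.inl hc
  have h0 := h 0
  have h1 := h 1
  have h2 := h 2
  simp only [Fin.val_zero, Fin.val_one, Fin.val_two] at h0 h1 h2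
  rcases h0 with h0 | h0 <;> rcases h1 with h1 | h1 <;> rcases h2 with h2 | h2
  · exact key s 0 1 (by norm_num) (by norm_num) h0 h1
  · exact key s 0 1 (by norm_num) (by norm_num) h0 h1
  · exact key s 0 2 (by norm_num) (by norm_num) h0 h2
  · exact key t 1 2 (by norm_num) (by norm_num) h1 h2
  · exact key s 1 2 (by norm_num) (by norm_num) h1 h2
  · exact key t 0 2 (by norm_num) (by norm_num) h0 h2
  · exact key t 0 1 (by norm_num) (by norm_num) h0 h1
  · exact key t 0 1 (by norm_num) (by norm_num) h0 h1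

/-- Compact subsets of the plane have covering dimension at most two. -/
theorem dim_le_two (X : Set (ℝ × ℝ)) (hX : IsCompact X) (k : ℕ) (U : Fin k → Set X)
    (hU : ∀ i, IsOpen (U i)) (hcov : (⋃ i, U i) = univ) :
    ∃ V : Fin k → Set X, (∀ i, IsOpen (V i)) ∧ (∀ i, V i ⊆ U i) ∧
        (⋃ i, V i) = univ ∧ ∀ x : X, {i | x ∈ V i}.ncard ≤ 2 + 1 := by
  rcases isEmpty_or_nonempty X with hE | ⟨⟨x0⟩⟩
  · exact ⟨U, hU, fun i => subset_rfl, hcov, fun x => (hE.false x).elim⟩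
  have : Nonempty (Fin k) := by
    have : x0 ∈ ⋃ i, U i := by rw [hcov]; trivial
    obtain ⟨i, _⟩ := mem_iUnion.1 this
    exact ⟨i⟩
  have : CompactSpace X := isCompact_iff_compactSpace.1 hX
  obtain ⟨δ, hδ, hleb⟩ := lebesgue_number_lemma_of_metric (isCompact_univ (X := X)) hU
    (by rw [hcov])
  set h : ℝ := δ / 2 with hh
  have hpos : 0 < h := by positivity
  let piece : Fin 3 → ℤ × ℤ → Set X := fun c m =>
    {x | (m.1 : ℝ) < (x : ℝ × ℝ).1 / h - (c : ℕ) / 3 ∧ (x : ℝ × ℝ).1 / h - (c : ℕ) / 3 < m.1 + 1 ∧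
      (m.2 : ℝ) < (x : ℝ × ℝ).2 / h - (c : ℕ) / 3 ∧ (x : ℝ × ℝ).2 / h - (c : ℕ) / 3 < m.2 + 1}
  have hopen : ∀ c m, IsOpen (piece c m) := by
    intro c m
    have e1 : IsOpen {x : X | (m.1 : ℝ) < (x : ℝ × ℝ).1 / h - (c : ℕ) / 3} :=
      isOpen_lt (by fun_prop) (by fun_prop)
    have e2 : IsOpen {x : X | (x : ℝ × ℝ).1 / h - (c : ℕ) / 3 < m.1 + 1} :=
      isOpen_lt (by fun_prop) (by fun_prop)
    have e3 : IsOpen {x : X | (m.2 : ℝ) < (x : ℝ × ℝ).2 / h - (c : ℕ) / 3} :=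
      isOpen_lt (by fun_prop) (by fun_prop)
    have e4 : IsOpen {x : X | (x : ℝ × ℝ).2 / h - (c : ℕ) / 3 < m.2 + 1} :=
      isOpen_lt (by fun_prop) (by fun_prop)
    exact e1.inter (e2.inter (e3.inter e4))
  have hsub : ∀ c m, (piece c m).Nonempty → ∃ i, piece c m ⊆ U i := by
    rintro c m ⟨x, hx⟩
    obtain ⟨i, hi⟩ := hleb x (mem_univ x)
    refine ⟨i, fun y hy => hi ?_⟩
    rw [Metric.mem_ball, Subtype.dist_eq, Prod.dist_eq]
    obtain ⟨a1, a2, a3, a4⟩ := hx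
    obtain ⟨b1, b2, b3, b4⟩ := hy
    have hd : δ = 2 * h := by rw [hh]; ring
    have aux : ∀ a b : ℝ, ∀ m : ℤ, ∀ q : ℝ, (m : ℝ) < a / h - q → a / h - q < m + 1 →
        (m : ℝ) < b / h - q → b / h - q < m + 1 → dist a b < δ := by
      intro a b m q h1 h2 h3 h4
      have h5 : a / h - b / h < 1 := by linarith
      have h6 : b / h - a / h < 1 := by linarith
      rw [← sub_div, div_lt_one hpos] at h5 h6
      rw [Real.dist_eq, abs_lt]
      constructor <;> linarith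
    exact max_lt (aux _ _ _ _ b1 b2 a1 a2) (aux _ _ _ _ b3 b4 a3 a4)
  choose! a ha using hsub
  refine ⟨fun i => ⋃ c, ⋃ m, ⋃ (_ : a c m = i), piece c m, ?_, ?_, ?_, ?_⟩
  · intro i
    exact isOpen_iUnion fun c => isOpen_iUnion fun m => isOpen_iUnion fun _ => hopen c m
  · intro i
    refine iUnion_subset fun c => iUnion_subset fun m => iUnion_subset fun he => ?_
    intro x hx
    rw [← he]
    exact ha c m ⟨x, hx⟩ hx
  · rw [eq_univ_iff_forall]
    intro x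
    obtain ⟨c, hc1, hc2⟩ := pigeon ((x : ℝ × ℝ).1 / h) ((x : ℝ × ℝ).2 / h)
    let m : ℤ × ℤ := (⌊(x : ℝ × ℝ).1 / h - (c : ℕ) / 3⌋, ⌊(x : ℝ × ℝ).2 / h - (c : ℕ) / 3⌋)
    have hxm : x ∈ piece c m := by
      refine ⟨?_, ?_, ?_, ?_⟩
      · exact lt_of_le_of_ne (Int.floor_le _) (Ne.symm (hc1 _))
      · exact Int.lt_floor_add_one _
      · exact lt_of_le_of_ne (Int.floor_le _) (Ne.symm (hc2 _))
      · exact Int.lt_floor_add_one _
    exact mem_iUnion.2 ⟨a c m, mem_iUnion.2 ⟨c, mem_iUnion.2 ⟨m, mem_iUnion.2 ⟨rfl, hxm⟩⟩⟩⟩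
  · intro x
    have hfl : {i | x ∈ ⋃ c, ⋃ m, ⋃ (_ : a c m = i), piece c m} ⊆
        (fun c : Fin 3 => a c (⌊(x : ℝ × ℝ).1 / h - (c : ℕ) / 3⌋,
          ⌊(x : ℝ × ℝ).2 / h - (c : ℕ) / 3⌋)) '' univ := by
      intro i hi
      simp only [mem_ofPred_eq, mem_iUnion] at hi
      obtain ⟨c, m, he, hx1, hx2, hx3, hx4⟩ := hi
      refine ⟨c, trivial, ?_⟩
      have e1 : ⌊(x : ℝ × ℝ).1 / h - (c : ℕ) / 3⌋ = m.1 := by
        rw [Int.floor_eq_iff]; exact ⟨hx1.le, hx2⟩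
      have e2 : ⌊(x : ℝ × ℝ).2 / h - (c : ℕ) / 3⌋ = m.2 := by
        rw [Int.floor_eq_iff]; exact ⟨hx3.le, hx4⟩
      simp only [e1, e2]
      exact he
    calc _ ≤ ((fun c : Fin 3 => a c (⌊(x : ℝ × ℝ).1 / h - (c : ℕ) / 3⌋,
          ⌊(x : ℝ × ℝ).2 / h - (c : ℕ) / 3⌋)) '' univ).ncard := ncard_le_ncard hfl (toFinite _)
      _ ≤ (univ : Set (Fin 3)).ncard := ncard_image_le (toFinite _)
      _ = 3 := by simp [ncard_univ]

theorem floor_const {Y : Type*} [TopologicalSpace Y] (C : Set Y) (hC : IsPreconnected C)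
    (f : Y → ℝ) (hf : Continuous f) (hne : ∀ x ∈ C, ∀ n : ℤ, f x ≠ n) (x y : Y) (hx : x ∈ C)
    (hy : y ∈ C) : ⌊f x⌋ = ⌊f y⌋ := by
  have key : ∀ x y, x ∈ C → y ∈ C → ¬ ⌊f x⌋ < ⌊f y⌋ := by
    intro x y hx hy hlt
    have h1 : f x ≤ (⌊f y⌋ : ℝ) := by
      have : (⌊f x⌋ : ℝ) + 1 ≤ ⌊f y⌋ := by exact_mod_cast hlt
      have h2 := Int.lt_floor_add_one (f x)
      linarith
    obtain ⟨z, hz, hze⟩ := hC.intermediate_value hx hy hf.continuousOn ⟨h1, Int.floor_le (f y)⟩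
    exact hne z hz _ hze
  exact le_antisymm (not_lt.1 (key y x hy hx)) (not_lt.1 (key x y hx hy))

/-- A two-dimensional intermediate value theorem, in the form needed for the lower bound of the
dimension. -/
theorem exists_zero (f : ℝ × ℝ → ℂ) (hf : Continuous f)
    (hL : ∀ t ∈ Icc (-1 : ℝ) 0, (f (-1, t)).re < 0)
    (hB : ∀ s ∈ Icc (-1 : ℝ) 0, (f (s, -1)).im < 0)
    (hR : ∀ t ∈ Icc (-1 : ℝ) 0, 0 < (f (0, t)).re + (f (0, t)).im)
    (hT : ∀ s ∈ Icc (-1 : ℝ) 0, 0 < (f (s, 0)).re + (f (s, 0)).im) :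
    ∃ z, f z = 0 := by
  by_contra hcon
  push Not at hcon
  have hex : ∃ F : ℝ × ℝ → ℂ, Continuous F ∧ ∀ z, Complex.exp (F z) = f z := by
    obtain ⟨F, ⟨-, hF⟩, -⟩ := Complex.isCoveringMapOn_exp.existsUnique_continuousMap_lifts
      (⟨f, hf⟩ : C(ℝ × ℝ, ℂ)) (a₀ := (0, 0)) (e₀ := Complex.log (f (0, 0)))
      (by simpa using Complex.exp_log (hcon _)) (fun z => by simpa using hcon z)
    exact ⟨F, F.continuous, fun z => congrFun hF z⟩
  obtain ⟨F, hFc, hF⟩ := hex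
  have hre : ∀ z, (f z).re = Real.exp (F z).re * Real.cos (F z).im := by
    intro z; rw [← hF z, Complex.exp_re]
  have him : ∀ z, (f z).im = Real.exp (F z).re * Real.sin (F z).im := by
    intro z; rw [← hF z, Complex.exp_im]
  have hcosneg : ∀ z, (f z).re < 0 → Real.cos (F z).im < 0 := by
    intro z hz
    rw [hre] at hz
    by_contra h
    push Not at h
    have := mul_nonneg (Real.exp_pos (F z).re).le h
    linarith
  have hsinneg : ∀ z, (f z).im < 0 → Real.sin (F z).im < 0 := by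
    intro z hz
    rw [him] at hz
    by_contra h
    push Not at h
    have := mul_nonneg (Real.exp_pos (F z).re).le h
    linarith
  have hsumpos : ∀ z, 0 < (f z).re + (f z).im → 0 < Real.cos (F z).im + Real.sin (F z).im := by
    intro z hz
    rw [hre, him, ← mul_add] at hz
    by_contra h
    push Not at h
    have := mul_nonneg (Real.exp_pos (F z).re).le (neg_nonneg.2 h)
    linarith
  set θ : ℝ × ℝ → ℝ := fun z => (F z).im with hθ
  have hθc : Continuous θ := Complex.continuous_im.comp hFc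
  -- sets
  let L : Set (ℝ × ℝ) := {(-1 : ℝ)} ×ˢ Icc (-1 : ℝ) 0
  let B : Set (ℝ × ℝ) := Icc (-1 : ℝ) 0 ×ˢ {(-1 : ℝ)}
  let R : Set (ℝ × ℝ) := ({(0 : ℝ)} ×ˢ Icc (-1 : ℝ) 0) ∪ (Icc (-1 : ℝ) 0 ×ˢ {(0 : ℝ)})
  have hLc : IsPreconnected L := isPreconnected_singleton.prod isPreconnected_Icc
  have hBc : IsPreconnected B := isPreconnected_Icc.prod isPreconnected_singleton
  have hRc : IsPreconnected R := by
    apply IsPreconnected.union ((0 : ℝ), (0 : ℝ))
    · exact ⟨rfl, by norm_num, le_refl _⟩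
    · exact ⟨⟨by norm_num, le_refl _⟩, rfl⟩
    · exact isPreconnected_singleton.prod isPreconnected_Icc
    · exact isPreconnected_Icc.prod isPreconnected_singleton
  have hpi := Real.pi_pos
  have h2pi : (2 * Real.pi) ≠ 0 := by positivity
  -- angle never 2πn on L
  have hLn : ∀ z ∈ L, ∀ n : ℤ, θ z / (2 * Real.pi) ≠ n := by
    rintro ⟨a, b⟩ ⟨ha, hb⟩ n hn
    have ha' : a = -1 := ha
    subst ha'
    have h1 : θ (-1, b) = n * (2 * Real.pi) := by field_simp at hn; linarith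
    have h2 := hcosneg (-1, b) (hL b hb)
    change Real.cos (θ (-1, b)) < 0 at h2
    rw [h1, Real.cos_int_mul_two_pi] at h2
    linarith
  have hBn : ∀ z ∈ B, ∀ n : ℤ, θ z / (2 * Real.pi) ≠ n := by
    rintro ⟨a, b⟩ ⟨ha, hb⟩ n hn
    have hb' : b = -1 := hb
    subst hb'
    have h1 : θ (a, -1) = n * (2 * Real.pi) := by field_simp at hn; linarith
    have h2 := hsinneg (a, -1) (hB a ha)
    change Real.sin (θ (a, -1)) < 0 at h2
    have h3 : Real.sin (n * (2 * Real.pi)) = 0 := by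
      have := Real.sin_int_mul_pi (2 * n)
      rw [← this]; push_cast; ring_nf
    rw [h1, h3] at h2
    linarith
  have hRpos : ∀ z ∈ R, 0 < (f z).re + (f z).im := by
    rintro ⟨a, b⟩ (⟨ha, hb⟩ | ⟨ha, hb⟩)
    · have ha' : a = 0 := ha
      subst ha'
      exact hR b hb
    · have hb' : b = 0 := hb
      subst hb'
      exact hT a ha
  have hRn : ∀ z ∈ R, ∀ n : ℤ, (θ z + Real.pi) / (2 * Real.pi) ≠ n := by
    intro z hz n hn
    have h1 : θ z = n * (2 * Real.pi) - Real.pi := by field_simp at hn; linarith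
    have h2 := hsumpos z (hRpos z hz)
    change 0 < Real.cos (θ z) + Real.sin (θ z) at h2
    have h3 : Real.cos (n * (2 * Real.pi) - Real.pi) = -1 := Real.cos_int_mul_two_pi_sub_pi n
    have h4 : Real.sin (n * (2 * Real.pi) - Real.pi) = 0 := by
      have := Real.sin_int_mul_pi (2 * n - 1)
      rw [← this]; push_cast; ring_nf
    rw [h1, h3, h4] at h2
    linarith
  -- corners
  have mLB_L : ((-1 : ℝ), (-1 : ℝ)) ∈ L := ⟨rfl, le_refl _, by norm_num⟩
  have mLB_B : ((-1 : ℝ), (-1 : ℝ)) ∈ B := ⟨⟨le_refl _, by norm_num⟩, rfl⟩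
  have mLT_L : ((-1 : ℝ), (0 : ℝ)) ∈ L := ⟨rfl, by norm_num, le_refl _⟩
  have mLT_R : ((-1 : ℝ), (0 : ℝ)) ∈ R := Or.inr ⟨⟨le_refl _, by norm_num⟩, rfl⟩
  have mRB_B : ((0 : ℝ), (-1 : ℝ)) ∈ B := ⟨⟨by norm_num, le_refl _⟩, rfl⟩
  have mRB_R : ((0 : ℝ), (-1 : ℝ)) ∈ R := Or.inl ⟨rfl, le_refl _, by norm_num⟩
  have eL := floor_const L hLc (fun z => θ z / (2 * Real.pi)) (by fun_prop) hLn _ _ mLB_L mLT_L
  have eB := floor_const B hBc (fun z => θ z / (2 * Real.pi)) (by fun_prop) hBn _ _ mLB_B mRB_B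
  have eR := floor_const R hRc (fun z => (θ z + Real.pi) / (2 * Real.pi)) (by fun_prop) hRn _ _
    mLT_R mRB_R
  beta_reduce at eL eB eR
  set n : ℤ := ⌊θ (-1, -1) / (2 * Real.pi)⌋ with hn
  set m : ℤ := ⌊(θ (-1, 0) + Real.pi) / (2 * Real.pi)⌋ with hm
  -- bounds at LT
  have hLT1 : (n : ℝ) * (2 * Real.pi) ≤ θ (-1, 0) := by
    have := Int.floor_le (θ (-1, 0) / (2 * Real.pi))
    rw [← eL, le_div_iff₀ (by positivity)] at this
    exact this
  have hLT1' : (n : ℝ) * (2 * Real.pi) ≠ θ (-1, 0) := by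
    intro h
    apply hLn _ mLT_L n
    rw [← h]; field_simp
  have hLT2 : θ (-1, 0) < (n + 1) * (2 * Real.pi) := by
    have := Int.lt_floor_add_one (θ (-1, 0) / (2 * Real.pi))
    rw [← eL, div_lt_iff₀ (by positivity)] at this
    exact this
  have hLT3 : (m : ℝ) * (2 * Real.pi) ≤ θ (-1, 0) + Real.pi := by
    have := Int.floor_le ((θ (-1, 0) + Real.pi) / (2 * Real.pi))
    rw [← hm, le_div_iff₀ (by positivity)] at this
    exact this
  have hLT4 : θ (-1, 0) + Real.pi < (m + 1) * (2 * Real.pi) := by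
    have := Int.lt_floor_add_one ((θ (-1, 0) + Real.pi) / (2 * Real.pi))
    rw [← hm, div_lt_iff₀ (by positivity)] at this
    exact this
  have hRB1 : (n : ℝ) * (2 * Real.pi) ≤ θ (0, -1) := by
    have := Int.floor_le (θ (0, -1) / (2 * Real.pi))
    rw [← eB, le_div_iff₀ (by positivity)] at this
    exact this
  have hRB2 : θ (0, -1) < (n + 1) * (2 * Real.pi) := by
    have := Int.lt_floor_add_one (θ (0, -1) / (2 * Real.pi))
    rw [← eB, div_lt_iff₀ (by positivity)] at this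
    exact this
  have hRB3 : (m : ℝ) * (2 * Real.pi) ≤ θ (0, -1) + Real.pi := by
    have := Int.floor_le ((θ (0, -1) + Real.pi) / (2 * Real.pi))
    rw [← eR, le_div_iff₀ (by positivity)] at this
    exact this
  have hRB4 : θ (0, -1) + Real.pi < (m + 1) * (2 * Real.pi) := by
    have := Int.lt_floor_add_one ((θ (0, -1) + Real.pi) / (2 * Real.pi))
    rw [← eR, div_lt_iff₀ (by positivity)] at this
    exact this
  -- signs
  have sLT : 0 < Real.sin (θ (-1, 0)) := by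
    have h1 := hcosneg (-1, 0) (hL 0 ⟨by norm_num, le_refl _⟩)
    have h2 := hsumpos (-1, 0) (hT (-1) ⟨le_refl _, by norm_num⟩)
    change Real.cos (θ (-1, 0)) < 0 at h1
    change 0 < Real.cos (θ (-1, 0)) + Real.sin (θ (-1, 0)) at h2
    linarith
  have sRB : Real.sin (θ (0, -1)) < 0 := hsinneg (0, -1) (hB 0 ⟨by norm_num, le_refl _⟩)
  -- conclude
  have c1 : θ (-1, 0) - n * (2 * Real.pi) < Real.pi := by
    by_contra h
    push Not at h
    have h1 : Real.sin (θ (-1, 0) - (n + 1 : ℤ) * (2 * Real.pi)) = Real.sin (θ (-1, 0)) :=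
      Real.sin_sub_int_mul_two_pi _ _
    have h2 := Real.sin_nonpos_of_nonpos_of_neg_pi_le
      (x := θ (-1, 0) - (n + 1 : ℤ) * (2 * Real.pi)) (by push_cast; linarith)
      (by push_cast; linarith)
    linarith
  have c2 : Real.pi < θ (0, -1) - n * (2 * Real.pi) := by
    by_contra h
    push Not at h
    have h1 : Real.sin (θ (0, -1) - n * (2 * Real.pi)) = Real.sin (θ (0, -1)) :=
      Real.sin_sub_int_mul_two_pi _ _
    have h2 := Real.sin_nonneg_of_nonneg_of_le_pi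
      (x := θ (0, -1) - n * (2 * Real.pi)) (by linarith) h
    linarith
  have c3 : θ (0, -1) - m * (2 * Real.pi) < 0 := by
    by_contra h
    push Not at h
    have h1 : Real.sin (θ (0, -1) - m * (2 * Real.pi)) = Real.sin (θ (0, -1)) :=
      Real.sin_sub_int_mul_two_pi _ _
    have h2 := Real.sin_nonneg_of_nonneg_of_le_pi
      (x := θ (0, -1) - m * (2 * Real.pi)) h (by linarith)
    linarith
  -- m = n
  have d1 : (m : ℝ) < n + 1 := by
    have : (m : ℝ) * (2 * Real.pi) < (n + 1) * (2 * Real.pi) := by linarith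
    exact lt_of_mul_lt_mul_right this (by positivity)
  have d2 : (n : ℝ) < m := by
    have : (n : ℝ) * (2 * Real.pi) < m * (2 * Real.pi) := by linarith
    exact lt_of_mul_lt_mul_right this (by positivity)
  have d1' : m < n + 1 := by exact_mod_cast d1
  have d2' : n < m := by exact_mod_cast d2
  omega

end Pool.Agent.Lib.MP_dce2ef
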