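import Pool.Agent.Lib.MP_dce2ef.Basic

set_option autoImplicit false

open Set Topology

namespace Pool.Agent.Lib.MP_dce2ef

/-- The three corners of the (right-angled) Sierpinski gasket. -/
noncomputable def corner : Fin 3 → ℝ × ℝ
  | 0 => (0, 0)
  | 1 => (1, 0)
  | 2 => (0, 1)

/-- The three contractions. -/
noncomputable def S (i : Fin 3) (z : ℝ × ℝ) : ℝ × ℝ := (1 / 2 : ℝ) • (z + corner i)

theorem S_continuous (i : Fin 3) : Continuous (S i) := by
  unfold S; fun_prop

theorem S_injective (i : Fin 3) : Function.Injective (S i) := by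
  intro x y h
  unfold S at h
  have h2 : (2 : ℝ) • ((1 / 2 : ℝ) • (x + corner i)) = (2 : ℝ) • ((1 / 2 : ℝ) • (y + corner i)) := by
    rw [h]
  simp only [smul_smul] at h2
  norm_num at h2
  exact h2

theorem S_dist (i : Fin 3) (x y : ℝ × ℝ) : dist (S i x) (S i y) = dist x y / 2 := by
  unfold S
  rw [dist_smul₀, dist_add_right]
  norm_num
  ring

theorem S_corner_comm (i j : Fin 3) : S i (corner j) = S j (corner i) := by
  unfold S; rw [add_comm]

theorem S_corner_self (i : Fin 3) : S i (corner i) = corner i := by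
  unfold S
  rw [← two_smul ℝ, smul_smul]; norm_num

/-- The full triangle. -/
def Tri : Set (ℝ × ℝ) := {z | 0 ≤ z.1 ∧ 0 ≤ z.2 ∧ z.1 + z.2 ≤ 1}

theorem corner_mem_Tri (i : Fin 3) : corner i ∈ Tri := by
  fin_cases i <;> simp [corner, Tri]

theorem Tri_isClosed : IsClosed Tri := by
  have h1 : IsClosed {z : ℝ × ℝ | 0 ≤ z.1} := isClosed_le (by fun_prop) (by fun_prop)
  have h2 : IsClosed {z : ℝ × ℝ | 0 ≤ z.2} := isClosed_le (by fun_prop) (by fun_prop)
  have h3 : IsClosed {z : ℝ × ℝ | z.1 + z.2 ≤ 1} := isClosed_le (by fun_prop) (by fun_prop)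
  exact h1.inter (h2.inter h3)

theorem Tri_isCompact : IsCompact Tri := by
  apply IsCompact.of_isClosed_subset (isCompact_Icc (a := ((0 : ℝ), (0 : ℝ))) (b := ((1 : ℝ), (1 : ℝ))))
    Tri_isClosed
  rintro ⟨x, y⟩ ⟨h1, h2, h3⟩
  simp only at h1 h2 h3
  refine ⟨⟨h1, h2⟩, ⟨?_, ?_⟩⟩ <;> simp only <;> linarith

theorem Tri_convex : Convex ℝ Tri := by
  intro x hx y hy a b ha hb hab
  obtain ⟨hx1, hx2, hx3⟩ := hx
  obtain ⟨hy1, hy2, hy3⟩ := hy
  refine ⟨?_, ?_, ?_⟩
  · simp only [Prod.fst_add, Prod.smul_fst, smul_eq_mul]; positivity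
  · simp only [Prod.snd_add, Prod.smul_snd, smul_eq_mul]; positivity
  · simp only [Prod.fst_add, Prod.smul_fst, smul_eq_mul, Prod.snd_add, Prod.smul_snd]
    nlinarith [mul_le_mul_of_nonneg_left hx3 ha, mul_le_mul_of_nonneg_left hy3 hb]

theorem S_image_Tri_subset (i : Fin 3) : S i '' Tri ⊆ Tri := by
  rintro _ ⟨⟨x, y⟩, ⟨h1, h2, h3⟩, rfl⟩
  simp only at h1 h2 h3
  fin_cases i <;> simp only [S, corner, Tri, mem_ofPred_eq, Prod.smul_mk, Prod.mk_add_mk,
    smul_eq_mul] <;> refine ⟨?_, ?_, ?_⟩ <;> linarith

theorem Tri_dist (x y : ℝ × ℝ) (hx : x ∈ Tri) (hy : y ∈ Tri) : dist x y ≤ 1 := by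
  obtain ⟨hx1, hx2, hx3⟩ := hx
  obtain ⟨hy1, hy2, hy3⟩ := hy
  rw [Prod.dist_eq]
  apply max_le <;> rw [Real.dist_eq, abs_le] <;> constructor <;> linarith

/-- The stages of the construction. -/
noncomputable def stage : ℕ → Set (ℝ × ℝ)
  | 0 => Tri
  | (k + 1) => ⋃ i, S i '' stage k

theorem stage_succ_subset (k : ℕ) : stage (k + 1) ⊆ stage k := by
  induction k with
  | zero =>
    simp only [stage]
    exact iUnion_subset S_image_Tri_subset
  | succ k ih =>
    rw [stage, stage]
    apply iUnion_mono
    intro i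
    exact image_mono ih

theorem stage_antitone : Antitone stage := antitone_nat_of_succ_le stage_succ_subset

theorem stage_isCompact (k : ℕ) : IsCompact (stage k) := by
  induction k with
  | zero => exact Tri_isCompact
  | succ k ih =>
    rw [stage]
    exact isCompact_iUnion (fun i => ih.image (S_continuous i))

theorem corner_mem_stage (k : ℕ) (i : Fin 3) : corner i ∈ stage k := by
  induction k with
  | zero => exact corner_mem_Tri i
  | succ k ih =>
    rw [stage]
    exact mem_iUnion.2 ⟨i, corner i, ih, S_corner_self i⟩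

/-- A union of three connected pieces meeting pairwise at midpoints is connected. -/
theorem preconnected_union_S (B : Set (ℝ × ℝ)) (hB : IsPreconnected B)
    (hc : ∀ i, corner i ∈ B) : IsPreconnected (⋃ i, S i '' B) := by
  apply IsPreconnected.iUnion_of_reflTransGen
  · intro i
    exact hB.image _ (S_continuous i).continuousOn
  · intro i j
    apply Relation.ReflTransGen.single
    refine ⟨S i (corner j), ⟨corner j, hc j, rfl⟩, ?_⟩
    rw [S_corner_comm]
    exact ⟨corner i, hc i, rfl⟩

theorem stage_preconnected (k : ℕ) : IsPreconnected (stage k) := by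
  induction k with
  | zero => exact Tri_convex.isPreconnected
  | succ k ih => exact preconnected_union_S _ ih (corner_mem_stage k)

/-- The gasket. -/
noncomputable def G : Set (ℝ × ℝ) := ⋂ k, stage k

theorem G_isPreconnected : IsPreconnected G :=
  isPreconnected_iInter_nat stage stage_antitone stage_isCompact stage_preconnected

theorem G_isClosed : IsClosed G := isClosed_iInter (fun k => (stage_isCompact k).isClosed)

theorem G_isCompact : IsCompact G :=
  (stage_isCompact 0).of_isClosed_subset G_isClosed (iInter_subset _ 0)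

theorem corner_mem_G (i : Fin 3) : corner i ∈ G := mem_iInter.2 (fun k => corner_mem_stage k i)

theorem G_subset_Tri : G ⊆ Tri := iInter_subset stage 0

theorem S_image_G_subset (i : Fin 3) : S i '' G ⊆ G := by
  rintro _ ⟨x, hx, rfl⟩
  apply mem_iInter.2
  intro k
  cases k with
  | zero => exact S_image_Tri_subset i ⟨x, G_subset_Tri hx, rfl⟩
  | succ k => exact mem_iUnion.2 ⟨i, x, mem_iInter.1 hx k, rfl⟩

theorem G_eq : G = ⋃ i, S i '' G := by
  apply subset_antisymm
  · intro x hx
    -- for each k, some i with x ∈ S i '' stage k; pigeonhole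
    by_contra hcon
    have h1 : ∀ i : Fin 3, ∃ k, x ∉ S i '' stage k := by
      intro i
      by_contra h
      push Not at h
      apply hcon
      refine mem_iUnion.2 ⟨i, ?_⟩
      choose y hy hyx using h
      refine ⟨y 0, ?_, hyx 0⟩
      apply mem_iInter.2
      intro k
      have : y 0 = y k := S_injective i (by rw [hyx 0, hyx k])
      rw [this]; exact hy k
    choose k hk using h1
    have hx' : x ∈ stage (k 0 + k 1 + k 2 + 1) := mem_iInter.1 hx _
    rw [stage] at hx'
    obtain ⟨i, hi⟩ := mem_iUnion.1 hx'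
    apply hk i
    refine image_mono (stage_antitone ?_) hi
    fin_cases i <;> simp <;> omega
  · exact iUnion_subset S_image_G_subset

/-- Words. -/
noncomputable def Sw : List (Fin 3) → (ℝ × ℝ) → (ℝ × ℝ)
  | [] => id
  | (i :: w) => S i ∘ Sw w

theorem Sw_continuous (w : List (Fin 3)) : Continuous (Sw w) := by
  induction w with
  | nil => exact continuous_id
  | cons i w ih => exact (S_continuous i).comp ih

theorem Sw_injective (w : List (Fin 3)) : Function.Injective (Sw w) := by
  induction w with
  | nil => exact Function.injective_id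
  | cons i w ih => exact (S_injective i).comp ih

theorem Sw_dist (w : List (Fin 3)) (x y : ℝ × ℝ) :
    dist (Sw w x) (Sw w y) = dist x y / 2 ^ w.length := by
  induction w with
  | nil => simp [Sw]
  | cons i w ih =>
    simp only [Sw, Function.comp_apply, List.length_cons]
    rw [S_dist, ih, pow_succ, div_div]

/-- Cells of the gasket. -/
noncomputable def cell (w : List (Fin 3)) : Set (ℝ × ℝ) := Sw w '' G

/-- The rest: union of the other cells of the same level. -/
noncomputable def rest : List (Fin 3) → Set (ℝ × ℝ)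
  | [] => ∅
  | (i :: w) => (⋃ j ∈ {j : Fin 3 | j ≠ i}, S j '' G) ∪ S i '' rest w

theorem cell_cons (i : Fin 3) (w : List (Fin 3)) : cell (i :: w) = S i '' cell w := by
  rw [cell, Sw, image_comp, cell]

theorem cell_nil : cell [] = G := by simp [cell, Sw]

theorem cell_union_rest (w : List (Fin 3)) : cell w ∪ rest w = G := by
  induction w with
  | nil => simp [cell_nil, rest]
  | cons i w ih =>
    rw [cell_cons, rest]
    have : G = S i '' G ∪ ⋃ j ∈ {j : Fin 3 | j ≠ i}, S j '' G := by
      conv_lhs => rw [G_eq]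
      ext x
      simp only [mem_iUnion, mem_union, mem_ofPred_eq, exists_prop]
      constructor
      · rintro ⟨j, hj⟩
        by_cases h : j = i
        · left; rw [← h]; exact hj
        · right; exact ⟨j, h, hj⟩
      · rintro (h | ⟨j, -, hj⟩)
        · exact ⟨i, h⟩
        · exact ⟨j, hj⟩
    rw [← union_assoc, union_right_comm, ← image_union, ih]
    exact this.symm

theorem cell_subset_G (w : List (Fin 3)) : cell w ⊆ G := by
  rw [← cell_union_rest w]; exact subset_union_left

theorem rest_subset_G (w : List (Fin 3)) : rest w ⊆ G := by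
  rw [← cell_union_rest w]; exact subset_union_right

theorem cell_isCompact (w : List (Fin 3)) : IsCompact (cell w) :=
  G_isCompact.image (Sw_continuous w)

theorem cell_isClosed (w : List (Fin 3)) : IsClosed (cell w) := (cell_isCompact w).isClosed

theorem cell_isPreconnected (w : List (Fin 3)) : IsPreconnected (cell w) :=
  G_isPreconnected.image _ (Sw_continuous w).continuousOn

theorem rest_isCompact (w : List (Fin 3)) : IsCompact (rest w) := by
  induction w with
  | nil => exact isCompact_empty
  | cons i w ih =>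
    rw [rest]
    apply IsCompact.union
    · apply Set.Finite.isCompact_biUnion (Set.toFinite _)
      intro j _
      exact G_isCompact.image (S_continuous j)
    · exact ih.image (S_continuous i)

theorem rest_isClosed (w : List (Fin 3)) : IsClosed (rest w) := (rest_isCompact w).isClosed

theorem cell_dist (w : List (Fin 3)) (x y : ℝ × ℝ) (hx : x ∈ cell w) (hy : y ∈ cell w) :
    dist x y ≤ 1 / 2 ^ w.length := by
  obtain ⟨a, ha, rfl⟩ := hx
  obtain ⟨b, hb, rfl⟩ := hy
  rw [Sw_dist]
  apply div_le_div_of_nonneg_right (Tri_dist a b (G_subset_Tri ha) (G_subset_Tri hb))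
  positivity

theorem exists_cell (x : ℝ × ℝ) (hx : x ∈ G) (k : ℕ) :
    ∃ w : List (Fin 3), w.length = k ∧ x ∈ cell w := by
  induction k generalizing x with
  | zero => exact ⟨[], rfl, by rw [cell_nil]; exact hx⟩
  | succ k ih =>
    rw [G_eq] at hx
    obtain ⟨i, y, hy, rfl⟩ := mem_iUnion.1 hx
    obtain ⟨w, hw, hyw⟩ := ih y hy
    exact ⟨i :: w, by simp [hw], by rw [cell_cons]; exact ⟨y, hyw, rfl⟩⟩

theorem corner_mem_rest (i j : Fin 3) (w : List (Fin 3)) (h : j ≠ i) : corner j ∈ rest (i :: w) := by
  rw [rest]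
  left
  simp only [mem_ofPred_eq, mem_iUnion, exists_prop]
  exact ⟨j, h, corner j, corner_mem_G j, S_corner_self j⟩

theorem rest_isPreconnected (w : List (Fin 3)) : IsPreconnected (rest w) := by
  induction w with
  | nil => exact isPreconnected_empty
  | cons i w ih =>
    have h1 : IsPreconnected (⋃ j ∈ {j : Fin 3 | j ≠ i}, S j '' G) := by
      apply IsPreconnected.biUnion_of_reflTransGen
      · intro j _
        exact G_isPreconnected.image _ (S_continuous j).continuousOn
      · intro j hj k hk
        apply Relation.ReflTransGen.single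
        refine ⟨⟨S j (corner k), ⟨corner k, corner_mem_G k, rfl⟩, ?_⟩, hj⟩
        rw [S_corner_comm]
        exact ⟨corner j, corner_mem_G j, rfl⟩
    rw [rest]
    cases w with
    | nil => simp only [rest, image_empty, union_empty]; exact h1
    | cons l w =>
      -- choose j ≠ i, j ≠ l
      obtain ⟨j, hji, hjl⟩ : ∃ j : Fin 3, j ≠ i ∧ j ≠ l := by
        clear h1 ih
        revert i l; decide
      apply IsPreconnected.union (S i (corner j)) _ _ h1
      · exact ih.image _ (S_continuous i).continuousOn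
      · simp only [mem_ofPred_eq, mem_iUnion, exists_prop]
        refine ⟨j, hji, corner i, corner_mem_G i, ?_⟩
        rw [S_corner_comm]
      · exact ⟨corner j, corner_mem_rest l j w hjl, rfl⟩

/-- Distinct first level cells meet in at most one point. -/
theorem S_inter_finite (i j : Fin 3) (h : i ≠ j) : (S i '' G ∩ S j '' G).Finite := by
  have hpt : ∀ i j : Fin 3, i ≠ j → ∀ x ∈ S i '' G ∩ S j '' G, x = S i (corner j) := by
    rintro i j hij x ⟨⟨⟨a, b⟩, ha, rfl⟩, ⟨⟨c, d⟩, hc, he⟩⟩
    obtain ⟨h1, h2, h3⟩ := G_subset_Tri ha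
    obtain ⟨h4, h5, h6⟩ := G_subset_Tri hc
    simp only at h1 h2 h3 h4 h5 h6
    fin_cases i <;> fin_cases j <;> simp only [S, corner, Prod.smul_mk, Prod.mk_add_mk,
      smul_eq_mul, Prod.mk.injEq, ne_eq, not_true_eq_false] at hij he ⊢ <;>
      obtain ⟨e1, e2⟩ := he <;> refine ⟨?_, ?_⟩ <;> linarith
  apply Set.Finite.subset (Set.finite_singleton (S i (corner j)))
  intro x hx
  exact hpt i j h x hx

theorem cell_inter_rest_finite (w : List (Fin 3)) : (cell w ∩ rest w).Finite := by
  induction w with
  | nil => simp [rest]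
  | cons i w ih =>
    rw [cell_cons, rest, inter_union_distrib_left]
    apply Set.Finite.union
    · rw [inter_iUnion₂]
      apply Set.Finite.biUnion (Set.toFinite _)
      intro j hj
      apply (S_inter_finite i j (Ne.symm hj)).subset
      exact inter_subset_inter_left _ (image_mono (cell_subset_G w))
    · rw [← image_inter (S_injective i)]
      exact ih.image _

/-- The set of vertices. -/
noncomputable def Vx : Set (ℝ × ℝ) := ⋃ w, (cell w ∩ rest w)

theorem Vx_countable : Vx.Countable :=
  countable_iUnion (fun w => (cell_inter_rest_finite w).countable)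

theorem S_Vx (i : Fin 3) : S i '' Vx ⊆ Vx := by
  rintro _ ⟨x, hx, rfl⟩
  obtain ⟨w, hw1, hw2⟩ := mem_iUnion.1 hx
  refine mem_iUnion.2 ⟨i :: w, ?_, ?_⟩
  · rw [cell_cons]; exact ⟨x, hw1, rfl⟩
  · rw [rest]; exact Or.inr ⟨x, hw2, rfl⟩

theorem Sw_Vx (w : List (Fin 3)) : ∀ x ∈ Vx, Sw w x ∈ Vx := by
  induction w with
  | nil => intro x hx; exact hx
  | cons i w ih => intro x hx; exact S_Vx i ⟨_, ih x hx, rfl⟩

theorem not_mem_rest (x : ℝ × ℝ) (hx : x ∉ Vx) (w : List (Fin 3)) (hw : x ∈ cell w) :
    x ∉ rest w := fun h => hx (mem_iUnion.2 ⟨w, hw, h⟩)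

theorem exists_pow_lt (r : ℝ) (hr : 0 < r) : ∃ k : ℕ, 1 / (2 : ℝ) ^ k < r := by
  obtain ⟨k, hk⟩ := exists_pow_lt_of_lt_one hr (by norm_num : (1 / 2 : ℝ) < 1)
  exact ⟨k, by simpa using hk⟩

/-- Every preconnected subset of the gasket avoiding the vertices is a subsingleton. -/
theorem subsingleton_of_avoid (C : Set (ℝ × ℝ)) (hC : IsPreconnected C) (hCG : C ⊆ G)
    (hCV : C ∩ Vx = ∅) : C.Subsingleton := by
  intro x hx y hy
  by_contra hxy
  obtain ⟨k, hk⟩ := exists_pow_lt (dist x y) (dist_pos.2 hxy)
  obtain ⟨w, hw, hxw⟩ := exists_cell x (hCG hx) k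
  have hsub : C ⊆ cell w := by
    have h := isPreconnected_closed_iff.1 hC (cell w) (rest w) (cell_isClosed w)
      (rest_isClosed w) (by rw [cell_union_rest]; exact hCG) ⟨x, hx, hxw⟩
    have h2 : ¬ (C ∩ rest w).Nonempty := by
      intro hne
      obtain ⟨z, hz, hz1, hz2⟩ := h hne
      have : z ∈ C ∩ Vx := ⟨hz, mem_iUnion.2 ⟨w, hz1, hz2⟩⟩
      rw [hCV] at this
      exact this
    intro z hz
    have hz' : z ∈ cell w ∪ rest w := by rw [cell_union_rest]; exact hCG hz
    rcases hz' with h' | h'
    · exact h'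
    · exact absurd ⟨z, hz, h'⟩ h2
  have := cell_dist w x y hxw (hsub hy)
  rw [hw] at this
  linarith

/-- The gasket minus a nonvertex point is preconnected. -/
theorem G_diff_isPreconnected (y : ℝ × ℝ) (hyG : y ∈ G) (hy : y ∉ Vx) :
    IsPreconnected (G \ {y}) := by
  -- first letter
  obtain ⟨i, hi⟩ : ∃ i, y ∈ S i '' G := by
    rw [G_eq] at hyG
    exact mem_iUnion.1 hyG
  have huniq : ∀ j, y ∈ S j '' G → j = i := by
    intro j hj
    by_contra hne
    apply hy
    refine mem_iUnion.2 ⟨[i], ?_, ?_⟩
    · rw [cell_cons, cell_nil]; exact hi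
    · rw [rest]
      left
      simp only [mem_ofPred_eq, mem_iUnion, exists_prop]
      exact ⟨j, hne, hj⟩
  obtain ⟨j, hji⟩ : ∃ j : Fin 3, j ≠ i := by
    clear hi huniq
    revert i; decide
  have hw : ∀ k : ℕ, ∃ w : List (Fin 3), w.length = k + 1 ∧ y ∈ cell w :=
    fun k => exists_cell y hyG (k + 1)
  choose w hwl hwy using hw
  have hcorner : ∀ k, corner j ∈ rest (w k) := by
    intro k
    cases hwk : w k with
    | nil =>
      have := hwl k
      rw [hwk] at this
      simp at this
    | cons l w' =>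
      apply corner_mem_rest
      have h1 := hwy k
      rw [hwk, cell_cons] at h1
      have h2 := huniq l (image_mono (cell_subset_G w') h1)
      rw [h2]; exact hji
  have heq : G \ {y} = ⋃ k, rest (w k) := by
    apply subset_antisymm
    · rintro z ⟨hz, hzy⟩
      have hzy' : z ≠ y := hzy
      obtain ⟨k, hk⟩ := exists_pow_lt (dist z y) (dist_pos.2 hzy')
      refine mem_iUnion.2 ⟨k, ?_⟩
      have hz' : z ∈ cell (w k) ∪ rest (w k) := by rw [cell_union_rest]; exact hz
      rcases hz' with h | h
      · exfalso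
        have h1 := cell_dist (w k) z y h (hwy k)
        rw [hwl k] at h1
        have h2 : 1 / (2 : ℝ) ^ (k + 1) ≤ 1 / 2 ^ k := by
          apply one_div_le_one_div_of_le (by positivity)
          apply pow_le_pow_right₀ (by norm_num) (by omega)
        linarith
      · exact h
    · apply iUnion_subset
      intro k z hz
      refine ⟨rest_subset_G _ hz, ?_⟩
      intro hzy
      have hzy' : z = y := hzy
      rw [hzy'] at hz
      exact not_mem_rest y hy (w k) (hwy k) hz
  rw [heq]
  apply isPreconnected_iUnion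
  · exact ⟨corner j, mem_iInter.2 hcorner⟩
  · intro k
    exact rest_isPreconnected (w k)

/-- A cell minus a nonvertex point is preconnected. -/
theorem cell_diff_isPreconnected (x : ℝ × ℝ) (hx : x ∉ Vx) (w : List (Fin 3)) (hxw : x ∈ cell w) :
    IsPreconnected (cell w \ {x}) := by
  obtain ⟨y, hyG, rfl⟩ := hxw
  have hy : y ∉ Vx := fun h => hx (Sw_Vx w y h)
  have : cell w \ {Sw w y} = Sw w '' (G \ {y}) := by
    rw [image_sdiff (Sw_injective w), image_singleton, cell]
  rw [this]
  exact (G_diff_isPreconnected y hyG hy).image _ (Sw_continuous w).continuousOn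

end Pool.Agent.Lib.MP_dce2ef
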