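import Pool.Agent.Lib.MP_dce2ef.Gasket
import Pool.Agent.Lib.MP_dce2ef.Dim

set_option autoImplicit false

open Set Topology

namespace Pool.Agent.Lib.MP_dce2ef

/-- The square. -/
def Q : Set (ℝ × ℝ) := Icc (-1 : ℝ) 0 ×ˢ Icc (-1 : ℝ) 0

theorem Q_isCompact : IsCompact Q := isCompact_Icc.prod isCompact_Icc
theorem Q_isClosed : IsClosed Q := Q_isCompact.isClosed
theorem Q_convex : Convex ℝ Q := (convex_Icc _ _).prod (convex_Icc _ _)
theorem Q_isPreconnected : IsPreconnected Q := Q_convex.isPreconnected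

theorem zero_mem_Q : ((0 : ℝ), (0 : ℝ)) ∈ Q := ⟨⟨by norm_num, le_refl _⟩, ⟨by norm_num, le_refl _⟩⟩
theorem zero_mem_G : ((0 : ℝ), (0 : ℝ)) ∈ G := corner_mem_G 0

theorem Q_inter_G (x : ℝ × ℝ) (hx : x ∈ Q) (hx' : x ∈ G) : x = (0, 0) := by
  obtain ⟨a, b⟩ := x
  obtain ⟨⟨h1, h2⟩, ⟨h3, h4⟩⟩ := hx
  obtain ⟨h5, h6, h7⟩ := G_subset_Tri hx'
  simp only at h1 h2 h3 h4 h5 h6
  rw [Prod.mk.injEq]
  constructor <;> linarith

/-- The continuum: a square and a gasket meeting in one point. -/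
noncomputable def X0 : Set (ℝ × ℝ) := Q ∪ G

theorem X0_isCompact : IsCompact X0 := Q_isCompact.union G_isCompact
theorem X0_isPreconnected : IsPreconnected X0 :=
  Q_isPreconnected.union _ zero_mem_Q zero_mem_G G_isPreconnected

instance : CompactSpace X0 := isCompact_iff_compactSpace.1 X0_isCompact
instance : ConnectedSpace X0 :=
  Subtype.connectedSpace ⟨⟨_, Or.inl zero_mem_Q⟩, X0_isPreconnected⟩

theorem preconnected_coe_preimage (B : Set (ℝ × ℝ)) (hB : B ⊆ X0) (hc : IsPreconnected B) :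
    IsPreconnected ((Subtype.val : X0 → ℝ × ℝ) ⁻¹' B) := by
  rw [← Topology.IsInducing.subtypeVal.isPreconnected_image, Subtype.image_preimage_coe,
    inter_eq_self_of_subset_right hB]
  exact hc

instance : LocallyConnectedSpace X0 := by
  apply locallyConnectedSpace_of_finite_closed_covers
  intro x ε hε
  obtain ⟨k, hk⟩ := exists_pow_lt ε hε
  refine ⟨(fun w => (Subtype.val : X0 → ℝ × ℝ) ⁻¹' (cell w)) '' {w | w.length = k} ∪
    {(Subtype.val : X0 → ℝ × ℝ) ⁻¹' (Q ∩ Metric.closedBall (x : ℝ × ℝ) (ε / 2)),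
     (Subtype.val : X0 → ℝ × ℝ) ⁻¹' (Q \ Metric.ball (x : ℝ × ℝ) (ε / 2))}, ?_, ?_, ?_, ?_⟩
  · apply Set.Finite.union
    · exact (List.finite_length_eq (Fin 3) k).image _
    · exact Set.toFinite _
  · rintro s (⟨w, hw, rfl⟩ | hs)
    · exact (cell_isClosed w).preimage continuous_subtype_val
    · rcases hs with rfl | rfl
      · exact (Q_isClosed.inter Metric.isClosed_closedBall).preimage continuous_subtype_val
      · exact (Q_isClosed.sdiff Metric.isOpen_ball).preimage continuous_subtype_val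
  · rw [eq_univ_iff_forall]
    rintro ⟨y, hy⟩
    rcases hy with hy | hy
    · by_cases hb : y ∈ Metric.ball (x : ℝ × ℝ) (ε / 2)
      · refine ⟨_, Or.inr (Or.inl rfl), ?_⟩
        exact ⟨hy, Metric.ball_subset_closedBall hb⟩
      · refine ⟨_, Or.inr (Or.inr rfl), ?_⟩
        exact ⟨hy, hb⟩
    · obtain ⟨w, hw, hyw⟩ := exists_cell y hy k
      exact ⟨_, Or.inl ⟨w, hw, rfl⟩, hyw⟩
  · rintro s (⟨w, hw, rfl⟩ | hs) hxs
    · refine ⟨preconnected_coe_preimage _ ((cell_subset_G w).trans subset_union_right)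
        (cell_isPreconnected w), ?_⟩
      intro y hy
      rw [Metric.mem_ball, Subtype.dist_eq]
      have := cell_dist w _ _ hy hxs
      have hw' : w.length = k := hw
      rw [hw'] at this
      linarith
    · rcases hs with rfl | rfl
      · refine ⟨preconnected_coe_preimage _ (inter_subset_left.trans subset_union_left)
          (Q_convex.inter (convex_closedBall _ _)).isPreconnected, ?_⟩
        intro y hy
        have h1 : dist (y : ℝ × ℝ) (x : ℝ × ℝ) ≤ ε / 2 := hy.2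
        rw [Metric.mem_ball, Subtype.dist_eq]
        linarith
      · exfalso
        exact hxs.2 (Metric.mem_ball_self (by positivity))

/-- The continuum has covering dimension greater than one. -/
theorem X0_not_dim_le_one : ¬ (∀ (k : ℕ) (U : Fin k → Set X0), (∀ i, IsOpen (U i)) →
    (⋃ i, U i) = Set.univ → ∃ V : Fin k → Set X0, (∀ i, IsOpen (V i)) ∧ (∀ i, V i ⊆ U i) ∧
        (⋃ i, V i) = Set.univ ∧ ∀ x : X0, {i | x ∈ V i}.ncard ≤ 2) := by
  intro hdim
  let F : Fin 3 → Set (ℝ × ℝ) := ![{(-1 : ℝ)} ×ˢ Icc (-1 : ℝ) 0, Icc (-1 : ℝ) 0 ×ˢ {(-1 : ℝ)},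
    ({(0 : ℝ)} ×ˢ Icc (-1 : ℝ) 0) ∪ (Icc (-1 : ℝ) 0 ×ˢ {(0 : ℝ)})]
  have hFc : ∀ i, IsClosed (F i) := by
    intro i
    fin_cases i
    · exact isClosed_singleton.prod isClosed_Icc
    · exact isClosed_Icc.prod isClosed_singleton
    · exact (isClosed_singleton.prod isClosed_Icc).union (isClosed_Icc.prod isClosed_singleton)
  let U : Fin 3 → Set X0 := fun i => ((Subtype.val : X0 → ℝ × ℝ) ⁻¹' (F i))ᶜ
  obtain ⟨V, hVo, hVU, hVc, hVn⟩ := hdim 3 U
    (fun i => ((hFc i).preimage continuous_subtype_val).isOpen_compl) (by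
      rw [eq_univ_iff_forall]
      intro x
      by_contra hx
      simp only [U, mem_iUnion, mem_compl_iff, mem_preimage, not_exists, not_not] at hx
      have h0 : (x : ℝ × ℝ) ∈ ({(-1 : ℝ)} ×ˢ Icc (-1 : ℝ) 0 : Set (ℝ × ℝ)) := hx 0
      have h1 : (x : ℝ × ℝ) ∈ (Icc (-1 : ℝ) 0 ×ˢ {(-1 : ℝ)} : Set (ℝ × ℝ)) := hx 1
      have h2 : (x : ℝ × ℝ) ∈ (({(0 : ℝ)} ×ˢ Icc (-1 : ℝ) 0) ∪ (Icc (-1 : ℝ) 0 ×ˢ {(0 : ℝ)}) :
        Set (ℝ × ℝ)) := hx 2
      have e0 : (x : ℝ × ℝ).1 = -1 := h0.1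
      have e1 : (x : ℝ × ℝ).2 = -1 := h1.2
      rcases h2 with h2 | h2
      · have e2 : (x : ℝ × ℝ).1 = 0 := h2.1
        linarith
      · have e2 : (x : ℝ × ℝ).2 = 0 := h2.2
        linarith)
  -- the functions
  let φ : Fin 3 → X0 → ℝ := fun i x => Metric.infDist x (V i)ᶜ
  have hφc : ∀ i, Continuous (φ i) := fun i => Metric.continuous_infDist_pt _
  have hφ0 : ∀ i x, 0 ≤ φ i x := fun i x => Metric.infDist_nonneg
  have hmemF : ∀ i, ∀ x : X0, (x : ℝ × ℝ) ∈ F i → x ∈ (V i)ᶜ := by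
    intro i x hx hxV
    exact hVU i hxV hx
  have hFne : ∀ i, ((V i)ᶜ).Nonempty := by
    intro i
    have hQ : ∀ p ∈ Q, p ∈ F i → ((V i)ᶜ).Nonempty := fun p hp hpF =>
      ⟨⟨p, Or.inl hp⟩, hmemF i _ hpF⟩
    fin_cases i
    · exact hQ (-1, -1) ⟨⟨le_refl _, by norm_num⟩, ⟨le_refl _, by norm_num⟩⟩
        ⟨rfl, ⟨le_refl _, by norm_num⟩⟩
    · exact hQ (-1, -1) ⟨⟨le_refl _, by norm_num⟩, ⟨le_refl _, by norm_num⟩⟩
        ⟨⟨le_refl _, by norm_num⟩, rfl⟩
    · exact hQ (0, 0) zero_mem_Q (Or.inl ⟨rfl, ⟨by norm_num, le_refl _⟩⟩)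
  have hφ : ∀ i x, φ i x = 0 ↔ x ∉ V i := by
    intro i x
    have := (hVo i).isClosed_compl.mem_iff_infDist_zero (hFne i) (x := x)
    exact this.symm
  let g : X0 → ℂ := fun x => ⟨2 * φ 0 x - φ 1 x - φ 2 x, - φ 0 x + 2 * φ 1 x - φ 2 x⟩
  have hgc : Continuous g := by
    have h0 := hφc 0
    have h1 := hφc 1
    have h2 := hφc 2
    have : g = fun x => ((2 * φ 0 x - φ 1 x - φ 2 x : ℝ) : ℂ) +
        ((- φ 0 x + 2 * φ 1 x - φ 2 x : ℝ) : ℂ) * Complex.I := by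
      funext x
      apply Complex.ext <;> simp [g]
    rw [this]
    fun_prop
  have hgne : ∀ x, g x ≠ 0 := by
    intro x hx
    have h1 := congrArg Complex.re hx
    have h2 := congrArg Complex.im hx
    simp only [g, Complex.zero_re, Complex.zero_im] at h1 h2
    have e1 : φ 0 x = φ 1 x := by linarith
    have e2 : φ 2 x = φ 0 x := by linarith
    by_cases hz : φ 0 x = 0
    · have hx' : x ∈ ⋃ i, V i := by rw [hVc]; trivial
      obtain ⟨i, hi⟩ := mem_iUnion.1 hx'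
      have : φ i x = 0 := by
        fin_cases i
        · exact hz
        · exact e1 ▸ hz
        · exact e2.trans hz
      exact (hφ i x).1 this hi
    · have hall : {i | x ∈ V i} = univ := by
        rw [eq_univ_iff_forall]
        intro i
        by_contra hi
        have h3 := (hφ i x).2 hi
        fin_cases i
        · exact hz h3
        · exact hz (e1.trans h3)
        · exact hz (e2.symm.trans h3)
      have h3 := hVn x
      rw [hall, ncard_univ] at h3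
      simp at h3
  -- clamp
  let r : ℝ → ℝ := fun s => max (-1) (min s 0)
  have hrc : Continuous r := by
    simp only [r]; fun_prop
  have hr1 : ∀ s, r s ∈ Icc (-1 : ℝ) 0 := fun s =>
    ⟨le_max_left _ _, max_le (by norm_num) (min_le_right _ _)⟩
  have hr2 : ∀ s ∈ Icc (-1 : ℝ) 0, r s = s := by
    rintro s ⟨h1, h2⟩
    simp only [r]
    rw [min_eq_left h2, max_eq_right h1]
  let f : ℝ × ℝ → ℂ := fun z => g ⟨(r z.1, r z.2), Or.inl ⟨hr1 _, hr1 _⟩⟩
  have hfc : Continuous f := by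
    apply hgc.comp
    apply Continuous.subtype_mk
    exact (hrc.comp continuous_fst).prodMk (hrc.comp continuous_snd)
  have hone : (1 : ℝ) ≤ 1 := le_refl _
  have hm1 : r (-1) = -1 := hr2 _ ⟨le_refl _, by norm_num⟩
  have h00 : r 0 = 0 := hr2 _ ⟨by norm_num, le_refl _⟩
  -- positivity of the sum of the φ
  have hpos : ∀ x : X0, ∀ i j : Fin 3, ∀ l : Fin 3, i ≠ j → j ≠ l → i ≠ l → φ l x = 0 →
      0 < φ i x + φ j x := by
    intro x i j l hij hjl hil hl
    by_contra hcon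
    push Not at hcon
    have hi : φ i x = 0 := le_antisymm (by linarith [hφ0 i x, hφ0 j x]) (hφ0 i x)
    have hj : φ j x = 0 := le_antisymm (by linarith [hφ0 i x, hφ0 j x]) (hφ0 j x)
    have hx' : x ∈ ⋃ i, V i := by rw [hVc]; trivial
    obtain ⟨m, hm⟩ := mem_iUnion.1 hx'
    have : m = i ∨ m = j ∨ m = l := by
      clear hcon hi hj hl hm
      revert i j l m; decide
    rcases this with rfl | rfl | rfl
    · exact (hφ _ x).1 hi hm
    · exact (hφ _ x).1 hj hm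
    · exact (hφ _ x).1 hl hm
  have hzero : ∀ i, ∀ x : X0, (x : ℝ × ℝ) ∈ F i → φ i x = 0 := fun i x hx =>
    (hφ i x).2 (hmemF i x hx)
  have hL : ∀ t ∈ Icc (-1 : ℝ) 0, (f (-1, t)).re < 0 := by
    intro t ht
    have h0 : φ 0 ⟨(r (-1), r t), Or.inl ⟨hr1 _, hr1 _⟩⟩ = 0 :=
      hzero 0 _ ⟨hm1, hr1 t⟩
    have h1 := hpos _ 1 2 0 (by decide) (by decide) (by decide) h0
    simp only [f, g]
    linarith
  have hB : ∀ s ∈ Icc (-1 : ℝ) 0, (f (s, -1)).im < 0 := by
    intro s hs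
    have h0 : φ 1 ⟨(r s, r (-1)), Or.inl ⟨hr1 _, hr1 _⟩⟩ = 0 :=
      hzero 1 _ ⟨hr1 s, hm1⟩
    have h1 := hpos _ 0 2 1 (by decide) (by decide) (by decide) h0
    simp only [f, g]
    linarith
  have hR : ∀ t ∈ Icc (-1 : ℝ) 0, 0 < (f (0, t)).re + (f (0, t)).im := by
    intro t ht
    have h0 : φ 2 ⟨(r 0, r t), Or.inl ⟨hr1 _, hr1 _⟩⟩ = 0 :=
      hzero 2 _ (Or.inl ⟨h00, hr1 t⟩)
    have h1 := hpos _ 0 1 2 (by decide) (by decide) (by decide) h0
    simp only [f, g]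
    linarith
  have hT : ∀ s ∈ Icc (-1 : ℝ) 0, 0 < (f (s, 0)).re + (f (s, 0)).im := by
    intro s hs
    have h0 : φ 2 ⟨(r s, r 0), Or.inl ⟨hr1 _, hr1 _⟩⟩ = 0 :=
      hzero 2 _ (Or.inr ⟨hr1 s, h00⟩)
    have h1 := hpos _ 0 1 2 (by decide) (by decide) (by decide) h0
    simp only [f, g]
    linarith
  obtain ⟨z, hz⟩ := exists_zero f hfc hL hB hR hT
  exact hgne _ hz

end Pool.Agent.Lib.MP_dce2ef
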